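import Mathlib.Order.Lattice.Nat

/-! Subcubes of the hypercube and polychromatic colourings. -/

namespace Pool.Agent.MP_53fe41_co

/-- `A` is a copy of `Q_l` in `Q_n`: the vertices obtained by fixing the coordinates outside an
`l`-element set `S` to prescribed values and letting the coordinates in `S` vary freely. -/
def IsSubcube (n l : ℕ) (A : Set (Fin n → Bool)) : Prop :=
  ∃ S : Finset (Fin n), S.card = l ∧ ∃ v : Fin n → Bool, A = {x | ∀ i, i ∉ S → x i = v i}

/-- A colouring of the copies of `Q_l` in `Q_n` with the `q` colours of `Fin q` is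
`(d, l)`-polychromatic if every copy of `Q_d` contains a copy of `Q_l` of each colour. -/
def IsPolychromatic (n d l q : ℕ) (χ : {A : Set (Fin n → Bool) // IsSubcube n l A} → Fin q) :
    Prop :=
  ∀ B : Set (Fin n → Bool), IsSubcube n d B → ∀ c : Fin q,
    ∃ A : {A : Set (Fin n → Bool) // IsSubcube n l A}, A.1 ⊆ B ∧ χ A = c

/-- `pc l n d` is the largest number of colours in a `(d, l)`-polychromatic colouring of `Q_n`. -/
noncomputable def pc (l n d : ℕ) : ℕ :=
  sSup {q : ℕ | ∃ χ : {A : Set (Fin n → Bool) // IsSubcube n l A} → Fin q,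
    IsPolychromatic n d l q χ}

end Pool.Agent.MP_53fe41_co
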