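import Mathlib.Topology.Sheaves.Presheaf
import Mathlib.Tactic.Monotonicity.Lemmas
import Mathlib.Analysis.SpecialFunctions.Log.Basic
import Mathlib.Data.List.GetD
import Mathlib.Algebra.Order.Star.Real
import Mathlib.RingTheory.PiTensorProduct
import Mathlib.Tactic.Algebra.Basic
import Pool.Agent.MP_53fe41_co.Defs

-- ======== part 0: formerly Pool.Agent.MP_53fe41_co.LLL
section MrgPart0

/-! A counting form of the symmetric local lemma for colourings of a finite set. -/

namespace Pool.Agent.MP_53fe41_co

open Finset

section LLL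
variable {V K : Type*} [Fintype V] [DecidableEq V] [Fintype K] [DecidableEq K]

/-- The property `P` of colourings depends only on the coordinates in `s`. -/
def DepOn (s : Finset V) (P : (V → K) → Prop) : Prop :=
  ∀ f g : V → K, (∀ v ∈ s, f v = g v) → P f → P g

lemma card_inter_mul (s : Finset V) (P Q : (V → K) → Prop) [DecidablePred P] [DecidablePred Q]
    (hP : DepOn s P) (hQ : DepOn sᶜ Q) :
    (univ.filter fun f => P f ∧ Q f).card * Fintype.card (V → K)
      = (univ.filter P).card * (univ.filter Q).card := by
  rw [← Finset.card_univ, ← Finset.card_product, ← Finset.card_product]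
  refine Finset.card_nbij' (fun x => (s.piecewise x.1 x.2, s.piecewise x.2 x.1))
    (fun x => (s.piecewise x.1 x.2, s.piecewise x.2 x.1)) ?_ ?_ ?_ ?_
  · rintro ⟨f, g⟩ h
    simp only [coe_product, coe_filter, mem_univ, true_and, Set.mem_prod, Set.mem_ofPred_eq,
      coe_univ, Set.mem_univ, and_true] at h ⊢
    refine ⟨hP f _ (fun v hv => by simp [hv]) h.1, hQ f _ (fun v hv => ?_) h.2⟩
    have : v ∉ s := by simpa using hv
    simp [this]
  · rintro ⟨f, g⟩ h
    simp only [coe_product, coe_filter, mem_univ, true_and, Set.mem_prod, Set.mem_ofPred_eq,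
      coe_univ, Set.mem_univ, and_true] at h ⊢
    refine ⟨hP f _ (fun v hv => by simp [hv]) h.1, hQ g _ (fun v hv => ?_) h.2⟩
    have : v ∉ s := by simpa using hv
    simp [this]
  · rintro ⟨f, g⟩ _
    ext v <;> by_cases hv : v ∈ s <;> simp [hv]
  · rintro ⟨f, g⟩ _
    ext v <;> by_cases hv : v ∈ s <;> simp [hv]

theorem lll [Nonempty K] {ι : Type*} [Fintype ι] (e : ι → Finset V)
    (Bad : ι → (V → K) → Prop) [∀ i, DecidablePred (Bad i)] (N Δ : ℕ) (p : ℝ)
    (hN : 0 < N) (hcard : ∀ i, (e i).card ≤ N) (hne : ∀ i, (e i).Nonempty)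
    (hdep : ∀ i, DepOn (e i) (Bad i))
    (hprob : ∀ i, ((univ.filter (Bad i)).card : ℝ) ≤ p * Fintype.card (V → K))
    (hdeg : ∀ v, (univ.filter fun i => v ∈ e i).card ≤ Δ)
    (hp : 0 ≤ p) (hmain : 4 * N * Δ * p ≤ 1) :
    ∃ f : V → K, ∀ i, ¬ Bad i f := by
  classical
  set G : Finset V → Finset (V → K) :=
    fun S => univ.filter fun f => ∀ i, e i ⊆ S → ¬ Bad i f with hG
  set β : ℝ := 1 - 1 / (2 * N) with hβ
  have hNr : (1 : ℝ) ≤ N := by exact_mod_cast hN
  have hβ0 : 0 < β := by
    have : 1 / (2 * (N : ℝ)) ≤ 1 / 2 := by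
      apply one_div_le_one_div_of_le <;> linarith
    linarith
  have hβ1 : β ≤ 1 := by
    have : 0 ≤ 1 / (2 * (N : ℝ)) := by positivity
    linarith
  have hβN : 1 / 2 ≤ β ^ N := by
    have h := one_add_mul_le_pow (a := -(1 / (2 * (N : ℝ)))) (by
      have : 1 / (2 * (N : ℝ)) ≤ 1 / 2 := by
        apply one_div_le_one_div_of_le <;> linarith
      linarith) N
    have h2 : (1 : ℝ) + N * -(1 / (2 * (N : ℝ))) = 1 / 2 := by
      field_simp; ring
    rw [h2] at h
    simpa [hβ, sub_eq_add_neg] using h
  have chain : ∀ n : ℕ,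
      (∀ S : Finset V, S.card < n → ∀ v ∉ S, β * (G S).card ≤ (G (insert v S)).card) →
      ∀ S : Finset V, S.card ≤ n → ∀ T : Finset V, T ⊆ S →
        β ^ T.card * (G (S \ T)).card ≤ (G S).card := by
    intro n H S hS T
    induction T using Finset.induction_on with
    | empty => intro _; simp
    | insert t T ht ih =>
      intro hT
      have htS : t ∈ S := hT (mem_insert_self _ _)
      have hTS : T ⊆ S := (subset_insert _ _).trans hT
      have h1 : S \ T = insert t (S \ insert t T) := by
        ext x
        simp only [mem_sdiff, mem_insert, not_or]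
        constructor
        · rintro ⟨h1, h2⟩
          by_cases hx : x = t
          · exact Or.inl hx
          · exact Or.inr ⟨h1, hx, h2⟩
        · rintro (rfl | ⟨h1, _, h3⟩)
          · exact ⟨htS, ht⟩
          · exact ⟨h1, h3⟩
      have h2 : (S \ insert t T).card < n := by
        have : (S \ insert t T) ⊂ S := by
          refine ⟨sdiff_subset, fun h => ?_⟩
          have := h htS
          simp at this
        exact lt_of_lt_of_le (card_lt_card this) hS
      have h3 := H _ h2 t (by simp)
      rw [← h1] at h3
      have h4 := ih hTS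
      rw [card_insert_of_notMem ht, pow_succ, mul_assoc]
      exact le_trans (mul_le_mul_of_nonneg_left h3 (by positivity)) h4
  have step : ∀ n : ℕ, ∀ S : Finset V, S.card = n → ∀ v ∉ S,
      β * (G S).card ≤ (G (insert v S)).card := by
    intro n
    induction n using Nat.strong_induction_on with
    | _ n ih =>
      intro S hS v hv
      have hch := chain n (fun S' hS' => ih _ hS' S' rfl) S hS.le
      set I : Finset ι := univ.filter fun i => v ∈ e i ∧ e i ⊆ insert v S with hI
      set B : ι → Finset (V → K) := fun i =>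
        univ.filter fun f => Bad i f ∧ ∀ j, e j ⊆ S \ (e i).erase v → ¬ Bad j f with hB
      have hsub : G S ⊆ G (insert v S) ∪ I.biUnion B := by
        intro f hf
        by_cases h : f ∈ G (insert v S)
        · exact mem_union_left _ h
        · refine mem_union_right _ ?_
          simp only [hG, mem_filter, mem_univ, true_and, not_forall, not_not] at h hf
          obtain ⟨i, hi, hb⟩ := h
          have hvi : v ∈ e i := by
            by_contra hvi
            exact hf i (fun x hx => by
              rcases mem_insert.1 (hi hx) with rfl | h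
              · exact absurd hx hvi
              · exact h) hb
          refine mem_biUnion.2 ⟨i, by simp [hI, hvi, hi], ?_⟩
          simp only [hB, mem_filter, mem_univ, true_and]
          exact ⟨hb, fun j hj => hf j (hj.trans sdiff_subset)⟩
      have hBi : ∀ i ∈ I, ((B i).card : ℝ) ≤ 2 * p * (G S).card := by
        intro i hi
        simp only [hI, mem_filter, mem_univ, true_and] at hi
        have hT : (e i).erase v ⊆ S := by
          intro x hx
          rcases mem_insert.1 (hi.2 (mem_of_mem_erase hx)) with h | h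
          · exact absurd h (ne_of_mem_erase hx)
          · exact h
        have h1 := hch _ hT
        have hdepQ : DepOn (e i)ᶜ (fun f => ∀ j, e j ⊆ S \ (e i).erase v → ¬ Bad j f) := by
          intro f g hfg hf j hj hb
          refine hf j hj (hdep j g f (fun x hx => (hfg x ?_).symm) hb)
          have := hj hx
          simp only [mem_sdiff, mem_erase, not_and] at this
          simp only [mem_compl]
          exact this.2 (fun h => hv (h ▸ this.1))
        have h2 := card_inter_mul (e i) (Bad i) _ (hdep i) hdepQ
        have h3 : ((B i).card : ℝ) * Fintype.card (V → K)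
            = (univ.filter (Bad i)).card * (G (S \ (e i).erase v)).card := by
          exact_mod_cast h2
        have hpos : (0 : ℝ) < Fintype.card (V → K) := by exact_mod_cast Fintype.card_pos
        have h4 : ((B i).card : ℝ) ≤ p * (G (S \ (e i).erase v)).card := by
          have := mul_le_mul_of_nonneg_right (hprob i)
            (Nat.cast_nonneg (α := ℝ) (G (S \ (e i).erase v)).card)
          rw [← h3] at this
          nlinarith
        have h5 : 1 / 2 ≤ β ^ ((e i).erase v).card :=
          hβN.trans (pow_le_pow_of_le_one hβ0.le hβ1 ((card_erase_le).trans (hcard i)))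
        have h6 : ((G (S \ (e i).erase v)).card : ℝ) ≤ 2 * (G S).card := by
          have := mul_le_mul_of_nonneg_right h5
            (Nat.cast_nonneg (α := ℝ) (G (S \ (e i).erase v)).card)
          linarith
        nlinarith
      have hIc : (I.card : ℝ) ≤ Δ := by
        have : I.card ≤ (univ.filter fun i => v ∈ e i).card :=
          card_le_card (fun i hi => by
            simp only [hI, mem_filter, mem_univ, true_and] at hi ⊢; exact hi.1)
        exact_mod_cast this.trans (hdeg v)
      have h7 : ((G S).card : ℝ) ≤ (G (insert v S)).card + Δ * (2 * p * (G S).card) := by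
        have h8 : (G S).card ≤ (G (insert v S)).card + ∑ i ∈ I, (B i).card :=
          (card_le_card hsub).trans ((card_union_le _ _).trans
            (Nat.add_le_add_left card_biUnion_le _))
        have h9 : ((G S).card : ℝ) ≤ (G (insert v S)).card + ∑ i ∈ I, ((B i).card : ℝ) := by
          exact_mod_cast h8
        have h10 : ∑ i ∈ I, ((B i).card : ℝ) ≤ I.card * (2 * p * (G S).card) := by
          simpa [nsmul_eq_mul] using sum_le_card_nsmul I _ _ hBi
        have h11 : (I.card : ℝ) * (2 * p * (G S).card) ≤ Δ * (2 * p * (G S).card) :=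
          mul_le_mul_of_nonneg_right hIc (by positivity)
        linarith
      have h12 : (Δ : ℝ) * (2 * p) ≤ 1 / (2 * N) := by
        rw [le_div_iff₀ (by positivity)]
        nlinarith
      have h13 : (Δ : ℝ) * (2 * p * (G S).card) ≤ 1 / (2 * N) * (G S).card := by
        have := mul_le_mul_of_nonneg_right h12 (Nat.cast_nonneg (α := ℝ) (G S).card)
        linarith
      rw [hβ]
      linarith
  have hfin := chain (univ : Finset V).card (fun S _ => step _ S rfl) univ le_rfl univ le_rfl
  have hG0 : G (univ \ univ) = univ := by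
    ext f
    simp only [hG, sdiff_self, bot_eq_empty, subset_empty, mem_filter, mem_univ, true_and,
      iff_true]
    intro i hi
    exact absurd hi (hne i).ne_empty
  rw [hG0] at hfin
  have hpos : (0 : ℝ) < (univ : Finset (V → K)).card := by
    exact_mod_cast card_pos.2 univ_nonempty
  have : (0 : ℝ) < (G univ).card := lt_of_lt_of_le (by positivity) hfin
  obtain ⟨f, hf⟩ := card_pos.1 (by exact_mod_cast this : 0 < (G univ).card)
  simp only [hG, mem_filter, mem_univ, true_and] at hf
  exact ⟨f, fun i => hf i (subset_univ _)⟩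

end LLL

end Pool.Agent.MP_53fe41_co

end MrgPart0

-- ======== part 1: formerly Pool.Agent.MP_53fe41_co.Miss
section MrgPart1

/-! Colourings of a hypergraph in which every edge misses few colours. -/

namespace Pool.Agent.MP_53fe41_co

open Finset

lemma card_avoid {V : Type*} [Fintype V] [DecidableEq V] {q : ℕ} (hq : 0 < q) (e : Finset V)
    (T : Finset (Fin q)) :
    ((univ.filter fun f : V → Fin q => ∀ v ∈ e, f v ∉ T).card : ℝ)
      = (1 - (T.card : ℝ) / q) ^ e.card * Fintype.card (V → Fin q) := by
  classical
  have h1 : (univ.filter fun f : V → Fin q => ∀ v ∈ e, f v ∉ T)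
      = Fintype.piFinset fun v => if v ∈ e then Tᶜ else univ := by
    ext f
    simp only [mem_filter, mem_univ, true_and, Fintype.mem_piFinset]
    constructor
    · intro h v
      by_cases hv : v ∈ e
      · simp [hv, h v hv]
      · simp [hv]
    · intro h v hv
      simpa [hv] using h v
  rw [h1, Fintype.card_piFinset]
  have hT : T.card ≤ q := by simpa using card_le_univ T
  have hq' : (0 : ℝ) < q := by exact_mod_cast hq
  have h2 : ∀ v : V, (((if v ∈ e then Tᶜ else univ : Finset (Fin q)).card : ℕ) : ℝ)
      = (if v ∈ e then (1 - (T.card : ℝ) / q) else 1) * q := by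
    intro v
    by_cases hv : v ∈ e
    · simp only [hv, if_true, card_compl, Fintype.card_fin]
      rw [Nat.cast_sub hT]
      field_simp
    · simp [hv]
  rw [Nat.cast_prod, Finset.prod_congr rfl (fun v _ => h2 v), prod_mul_distrib,
    Finset.prod_ite_mem]
  simp

theorem exists_few_missing {V : Type*} [Fintype V] [DecidableEq V] {ι : Type*} [Fintype ι]
    (e : ι → Finset V) (q m N Δ : ℕ) (hN : 0 < N) (hq : 0 < q) (hm : m ≤ q)
    (hcard : ∀ i, N ≤ (e i).card)
    (hdeg : ∀ v, (univ.filter fun i => v ∈ e i).card ≤ Δ)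
    (hmain : 4 * (N : ℝ) * Δ * ((q.choose m : ℝ) * (1 - (m : ℝ) / q) ^ N) ≤ 1) :
    ∃ f : V → Fin q, ∀ i, (univ.filter fun c : Fin q => ∀ v ∈ e i, f v ≠ c).card < m := by
  classical
  haveI : Nonempty (Fin q) := ⟨⟨0, hq⟩⟩
  choose e' he' hc' using fun i => Finset.exists_subset_card_eq (hcard i)
  have hq' : (0 : ℝ) < q := by exact_mod_cast hq
  have h0 : 0 ≤ 1 - (m : ℝ) / q := by
    rw [sub_nonneg, div_le_one hq']; exact_mod_cast hm
  obtain ⟨f, hf⟩ := lll (K := Fin q) e'
    (fun i f => m ≤ (univ.filter fun c : Fin q => ∀ v ∈ e' i, f v ≠ c).card) N Δ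
    ((q.choose m : ℝ) * (1 - (m : ℝ) / q) ^ N) hN (fun i => (hc' i).le)
    (fun i => card_pos.1 (by rw [hc' i]; exact hN))
    (fun i f g hfg h => by
      have : (univ.filter fun c : Fin q => ∀ v ∈ e' i, f v ≠ c)
          = univ.filter fun c : Fin q => ∀ v ∈ e' i, g v ≠ c := by
        ext c
        simp only [mem_filter, mem_univ, true_and]
        exact forall₂_congr fun v hv => by rw [hfg v hv]
      simpa [this] using h)
    (fun i => by
      have hsub : (univ.filter fun f : V → Fin q =>
            m ≤ (univ.filter fun c : Fin q => ∀ v ∈ e' i, f v ≠ c).card)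
          ⊆ (powersetCard m (univ : Finset (Fin q))).biUnion
            fun T => univ.filter fun f : V → Fin q => ∀ v ∈ e' i, f v ∉ T := by
        intro f hf
        simp only [mem_filter, mem_univ, true_and] at hf
        obtain ⟨T, hT, hTc⟩ := Finset.exists_subset_card_eq hf
        refine mem_biUnion.2 ⟨T, mem_powersetCard.2 ⟨subset_univ _, hTc⟩, ?_⟩
        simp only [mem_filter, mem_univ, true_and]
        intro v hv hfv
        have := hT hfv
        simp only [mem_filter, mem_univ, true_and] at this
        exact this v hv rfl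
      have h1 := (card_le_card hsub).trans card_biUnion_le
      have h2 : (((univ.filter fun f : V → Fin q =>
            m ≤ (univ.filter fun c : Fin q => ∀ v ∈ e' i, f v ≠ c).card).card : ℕ) : ℝ)
          ≤ ∑ T ∈ powersetCard m (univ : Finset (Fin q)),
            ((univ.filter fun f : V → Fin q => ∀ v ∈ e' i, f v ∉ T).card : ℝ) := by
        exact_mod_cast h1
      refine h2.trans (le_of_eq ?_)
      rw [Finset.sum_congr rfl (g := fun _ => (1 - (m : ℝ) / q) ^ N * Fintype.card (V → Fin q))
        (fun T hT => by rw [card_avoid hq, (mem_powersetCard.1 hT).2, hc' i])]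
      simp [mul_assoc])
    (fun v => (card_le_card (fun i hi => by
      simp only [mem_filter, mem_univ, true_and] at hi ⊢
      exact he' i hi)).trans (hdeg v))
    (by positivity) hmain
  refine ⟨f, fun i => lt_of_le_of_lt (card_le_card fun c hc => ?_) (not_le.1 (hf i))⟩
  simp only [mem_filter, mem_univ, true_and] at hc ⊢
  exact fun v hv => hc v (he' i hv)

/-- The exponential form of the criterion. -/
theorem exists_few_missing' {V : Type*} [Fintype V] [DecidableEq V] {ι : Type*} [Fintype ι]
    (e : ι → Finset V) (q m N Δ : ℕ) (hN : 0 < N) (hΔ : 0 < Δ) (hm0 : 0 < m) (hm : m ≤ q)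
    (hcard : ∀ i, N ≤ (e i).card)
    (hdeg : ∀ v, (univ.filter fun i => v ∈ e i).card ≤ Δ)
    (hmain : Real.log (4 * N * Δ) + m * (1 + Real.log (q / m)) ≤ m * N / q) :
    ∃ f : V → Fin q, ∀ i, (univ.filter fun c : Fin q => ∀ v ∈ e i, f v ≠ c).card < m := by
  have hq : 0 < q := lt_of_lt_of_le hm0 hm
  refine exists_few_missing e q m N Δ hN hq hm hcard hdeg ?_
  have hq' : (0 : ℝ) < q := by exact_mod_cast hq
  have hm' : (0 : ℝ) < m := by exact_mod_cast hm0
  have hN' : (0 : ℝ) < N := by exact_mod_cast hN
  have hΔ' : (0 : ℝ) < Δ := by exact_mod_cast hΔ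
  have h0 : 0 ≤ 1 - (m : ℝ) / q := by
    rw [sub_nonneg, div_le_one hq']; exact_mod_cast hm
  have h1 : (1 - (m : ℝ) / q) ^ N ≤ Real.exp (-(m * N / q)) := by
    have h := Real.add_one_le_exp (-((m : ℝ) / q))
    have h2 : (1 - (m : ℝ) / q) ^ N ≤ Real.exp (-((m : ℝ) / q)) ^ N :=
      pow_le_pow_left₀ h0 (by linarith) N
    rw [← Real.exp_nat_mul] at h2
    convert h2 using 2
    ring
  have h2 : (q.choose m : ℝ) ≤ Real.exp (m * (1 + Real.log (q / m))) := by
    have h3 : (q.choose m : ℝ) ≤ (q : ℝ) ^ m / m.factorial := Nat.choose_le_pow_div m q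
    have h4 : (m : ℝ) ^ m / m.factorial ≤ Real.exp m := Real.pow_div_factorial_le_exp _ hm'.le m
    have h5 : Real.exp (m * (1 + Real.log (q / m))) = Real.exp m * ((q : ℝ) / m) ^ m := by
      rw [mul_add, mul_one, Real.exp_add, Real.exp_nat_mul, Real.exp_log (by positivity)]
    rw [h5]
    have h6 : (q : ℝ) ^ m / m.factorial = (m : ℝ) ^ m / m.factorial * ((q : ℝ) / m) ^ m := by
      rw [div_pow]; field_simp
    rw [h6] at h3
    exact h3.trans (mul_le_mul_of_nonneg_right h4 (by positivity))
  have h7 : 4 * (N : ℝ) * Δ = Real.exp (Real.log (4 * N * Δ)) :=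
    (Real.exp_log (by positivity)).symm
  calc 4 * (N : ℝ) * Δ * ((q.choose m : ℝ) * (1 - (m : ℝ) / q) ^ N)
      ≤ Real.exp (Real.log (4 * N * Δ)) *
          (Real.exp (m * (1 + Real.log (q / m))) * Real.exp (-(m * N / q))) := by
        rw [← h7]
        gcongr
    _ = Real.exp (Real.log (4 * N * Δ) + m * (1 + Real.log (q / m)) - m * N / q) := by
        rw [← Real.exp_add, ← Real.exp_add]; congr 1; ring
    _ ≤ 1 := Real.exp_le_one_iff.2 (by linarith)

end Pool.Agent.MP_53fe41_co

end MrgPart1

-- ======== part 2: formerly Pool.Agent.MP_53fe41_co.Face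
section MrgPart2

/-! Counting vectors of faces of a subcube. -/

namespace Pool.Agent.MP_53fe41_co

open Finset

section Face
variable {A : Type*} [Ring A]

/-- `Face x a`: a subcube with counting vector `x` has a face with counting vector `a`. -/
inductive Face : List A → List A → Prop
  | single (x : A) : Face [x] [x]
  | keep (x : A) {xs as : List A} : Face xs as → Face (x :: xs) (x :: as)
  | merge (x : A) (b : Bool) {xs : List A} {a : A} {as : List A} :
      Face xs (a :: as) → Face (x :: xs) ((x + (if b then 1 else 0) + a) :: as)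

lemma Face.ne_nil_left {x a : List A} (h : Face x a) : x ≠ [] := by
  cases h <;> simp

lemma Face.ne_nil_right {x a : List A} (h : Face x a) : a ≠ [] := by
  cases h <;> simp

lemma Face.refl : ∀ {x : List A}, x ≠ [] → Face x x
  | [], h => absurd rfl h
  | [x], _ => Face.single x
  | x :: y :: t, _ => Face.keep x (Face.refl (by simp))

lemma Face.append {u a v b : List A} (h : Face u a) (h' : Face v b) :
    Face (u ++ v) (a ++ b) := by
  induction h with
  | single x => exact Face.keep x h'
  | keep x _ ih => exact Face.keep x ih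
  | merge x c _ ih => exact Face.merge x c ih

lemma Face.block : ∀ (u : List A) (s : ℕ), s < u.length → Face u [u.sum + s]
  | [], s, h => by simp at h
  | [x], s, h => by
    have : s = 0 := by simpa using h
    subst this
    simpa using Face.single x
  | x :: y :: t, 0, _ => by
    have := Face.merge x false (Face.block (y :: t) 0 (by simp))
    simpa using this
  | x :: y :: t, s + 1, h => by
    have := Face.merge x true (Face.block (y :: t) s (by simpa using h))
    convert this using 2
    simp only [List.sum_cons, Nat.cast_add, Nat.cast_one, if_true]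
    abel

lemma Face.lift {B : Type*} [Ring B] (f : A →+* B) {y b : List B} (h : Face y b) :
    ∀ x : List A, x.map f = y → ∃ a, Face x a ∧ a.map f = b := by
  induction h with
  | single z =>
    intro x hx
    obtain ⟨x0, rfl, rfl⟩ : ∃ x0, x = [x0] ∧ f x0 = z := by
      rcases x with _ | ⟨x0, _ | ⟨x1, t⟩⟩
      · simp at hx
      · exact ⟨x0, rfl, by simpa using hx⟩
      · simp at hx
    exact ⟨[x0], Face.single x0, rfl⟩
  | keep z _ ih =>
    intro x hx
    rcases x with _ | ⟨x0, t⟩
    · simp at hx
    · simp only [List.map_cons, List.cons.injEq] at hx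
      obtain ⟨a, ha, rfl⟩ := ih t hx.2
      exact ⟨x0 :: a, Face.keep x0 ha, by simp [hx.1]⟩
  | merge z c _ ih =>
    intro x hx
    rcases x with _ | ⟨x0, t⟩
    · simp at hx
    · simp only [List.map_cons, List.cons.injEq] at hx
      obtain ⟨a, ha, ha'⟩ := ih t hx.2
      rcases a with _ | ⟨a0, as⟩
      · simp at ha'
      · simp only [List.map_cons, List.cons.injEq] at ha'
        refine ⟨_, Face.merge x0 c ha, ?_⟩
        cases c <;> simp [hx.1, ha'.1, ha'.2]

/-- Abstract lower bound for the number of cells. -/
lemma count_cells (M : ℕ) (hinj : ∀ s s' : ℕ, s < M → s' < M → (s : A) = s' → s = s')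
    (R : ℕ → ℕ → List A → Prop)
    (hbase : ∀ n, ∃ w : A, ∀ s < n, R 0 n [w + s])
    (hstep : ∀ r n t, 1 ≤ t → t ≤ n → ∃ w : A, ∀ s < t, ∀ a, R r (n - t) a →
      R (r + 1) n ((w + s) :: a)) :
    ∀ r n, n ≤ M + r → ∃ F : Finset (List A), (∀ a ∈ F, R r n a ∧ a.length = r + 1) ∧
      n.choose (r + 1) ≤ F.card := by
  classical
  have himg : ∀ (w : A) (t : ℕ), t ≤ M → ((range t).image fun s : ℕ => w + s).card = t := by
    intro w t ht
    rw [card_image_of_injOn, card_range]
    intro s hs s' hs' h
    simp only [coe_range, Set.mem_Iio] at hs hs'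
    exact hinj s s' (by omega) (by omega) (add_left_cancel h)
  intro r
  induction r with
  | zero =>
    intro n hn
    obtain ⟨w, hw⟩ := hbase n
    refine ⟨((range n).image fun s : ℕ => w + s).image fun z => [z], ?_, ?_⟩
    · intro a ha
      simp only [mem_image, mem_range, exists_exists_and_eq_and] at ha
      obtain ⟨s, hs, rfl⟩ := ha
      exact ⟨hw s hs, rfl⟩
    · rw [card_image_of_injective _ (fun a b h => by simpa using h), himg w n (by omega)]
      simp
  | succ r ih =>
    intro n hn
    have key : ∀ T, T + (r + 1) ≤ n → ∃ (F : Finset (List A)) (H : Finset A), H.card = T ∧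
        (∀ a ∈ F, ∃ h ∈ H, ∃ a', a = h :: a') ∧
        (∀ a ∈ F, R (r + 1) n a ∧ a.length = r + 1 + 1) ∧
        n.choose (r + 1 + 1) ≤ F.card + (n - T).choose (r + 1 + 1) := by
      intro T
      induction T with
      | zero => intro _; exact ⟨∅, ∅, rfl, by simp, by simp, by simp⟩
      | succ T ihT =>
        intro hT
        obtain ⟨F, H, hH, hF1, hF2, hF3⟩ := ihT (by omega)
        obtain ⟨w, hw⟩ := hstep r n (T + 1) (by omega) (by omega)
        have hc := himg w (T + 1) (by omega)
        obtain ⟨h, hh1, hh2⟩ := exists_mem_notMem_of_card_lt_card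
          (s := H) (t := (range (T + 1)).image fun s : ℕ => w + s) (by omega)
        obtain ⟨s, hs, rfl⟩ := mem_image.1 hh1
        obtain ⟨F', hF'1, hF'2⟩ := ih (n - (T + 1)) (by omega)
        refine ⟨F ∪ F'.image (List.cons (w + s)), insert (w + s) H,
          by rw [card_insert_of_notMem hh2, hH], ?_, ?_, ?_⟩
        · intro a ha
          rcases mem_union.1 ha with ha | ha
          · obtain ⟨h, h1, h2⟩ := hF1 a ha
            exact ⟨h, mem_insert_of_mem h1, h2⟩
          · obtain ⟨a', _, rfl⟩ := mem_image.1 ha
            exact ⟨_, mem_insert_self _ _, a', rfl⟩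
        · intro a ha
          rcases mem_union.1 ha with ha | ha
          · exact hF2 a ha
          · obtain ⟨a', ha', rfl⟩ := mem_image.1 ha
            exact ⟨hw s (mem_range.1 hs) a' (hF'1 a' ha').1, by simp [(hF'1 a' ha').2]⟩
        · rw [card_union_of_disjoint, card_image_of_injective _ (List.cons_injective)]
          · have : n - T = (n - (T + 1)) + 1 := by omega
            rw [this, Nat.choose_succ_succ'] at hF3
            omega
          · rw [disjoint_left]
            intro a ha ha'
            obtain ⟨h, h1, a1, rfl⟩ := hF1 a ha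
            obtain ⟨a2, _, h2⟩ := mem_image.1 ha'
            simp only [List.cons.injEq] at h2
            exact hh2 (h2.1 ▸ h1)
    by_cases hn' : r + 1 ≤ n
    · obtain ⟨F, _, _, _, hF2, hF3⟩ := key (n - (r + 1)) (by omega)
      refine ⟨F, hF2, ?_⟩
      have : n - (n - (r + 1)) = r + 1 := by omega
      rw [this, Nat.choose_succ_self] at hF3
      simpa using hF3
    · exact ⟨∅, by simp, by rw [Nat.choose_eq_zero_of_lt (by omega)]; simp⟩

/-- Every subcube has at least `n.choose (r+1)` different cells. -/
lemma count_face (M : ℕ) (hinj : ∀ s s' : ℕ, s < M → s' < M → (s : A) = s' → s = s')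
    (x : List A) (r : ℕ) (h : x.length ≤ M + r) :
    ∃ F : Finset (List A), (∀ a ∈ F, Face x a ∧ a.length = r + 1) ∧
      x.length.choose (r + 1) ≤ F.card := by
  obtain ⟨F, hF, hc⟩ := count_cells M hinj
    (fun _ n a => n ≤ x.length → Face (x.drop (x.length - n)) a)
    (fun n => ⟨(x.drop (x.length - n)).sum, fun s hs hn =>
      Face.block _ s (by rw [List.length_drop]; omega)⟩)
    (fun r n t ht htn => ⟨((x.drop (x.length - n)).take t).sum, fun s hs a ha hn => by
      have h1 := Face.block ((x.drop (x.length - n)).take t) s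
        (by rw [List.length_take, List.length_drop]; omega)
      have h2 := h1.append (ha (by omega))
      have h3 : x.length - (n - t) = x.length - n + t := by omega
      rw [h3, ← List.drop_drop, List.take_append_drop] at h2
      simpa using h2⟩) r x.length h
  exact ⟨F, fun a ha => ⟨by simpa using (hF a ha).1 le_rfl, (hF a ha).2⟩, hc⟩

/-- Every cell lies in few subcubes. -/
lemma degree_face [Fintype A] : ∀ (n : ℕ) (a0 : A) (as : List A),
    ∃ F : Finset (List A), (∀ x, x.length = n + 1 → Face x (a0 :: as) → x ∈ F) ∧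
      F.card ≤ n.choose as.length * (2 * Fintype.card A) ^ (n - as.length) := by
  classical
  intro n
  induction n with
  | zero =>
    intro a0 as
    rcases as with _ | ⟨a1, as⟩
    · refine ⟨{[a0]}, fun x hx h => ?_, by simp⟩
      rcases x with _ | ⟨x0, _ | ⟨x1, t⟩⟩
      · simp at hx
      · cases h with
        | single => simp
        | keep _ h => exact absurd rfl h.ne_nil_left
        | merge _ _ h => exact absurd rfl h.ne_nil_left
      · simp at hx
    · refine ⟨∅, fun x hx h => ?_, by simp⟩
      rcases x with _ | ⟨x0, _ | ⟨x1, t⟩⟩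
      · simp at hx
      · cases h with
        | keep _ h => exact absurd rfl h.ne_nil_left
        | merge _ _ h => exact absurd rfl h.ne_nil_left
      · simp at hx
  | succ n ih =>
    intro a0 as
    choose F hF1 hF2 using ih
    set F2 : Finset (List A) := (univ : Finset (A × Bool)).biUnion fun z =>
      (F (-(z.1 + (if z.2 then 1 else 0)) + a0) as).image (List.cons z.1) with hF2def
    have hF2c : F2.card
        ≤ n.choose as.length * (2 * Fintype.card A) ^ (n + 1 - as.length) := by
      refine card_biUnion_le.trans ?_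
      refine (sum_le_card_nsmul _ _
        (n.choose as.length * (2 * Fintype.card A) ^ (n - as.length))
        (fun z _ => card_image_le.trans (hF2 _ _))).trans ?_
      simp only [card_univ, Fintype.card_prod, Fintype.card_bool, smul_eq_mul]
      by_cases h : as.length ≤ n
      · have : n + 1 - as.length = n - as.length + 1 := by omega
        rw [this, pow_succ]
        apply le_of_eq; ring
      · rw [Nat.choose_eq_zero_of_lt (by omega)]; simp
    have hmerge : ∀ (x0 : A) (b : Bool) (xs : List A) (a : A), xs.length = n + 1 →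
        Face xs (a :: as) → a0 = x0 + (if b then 1 else 0) + a → x0 :: xs ∈ F2 := by
      intro x0 b xs a hxs h ha
      refine mem_biUnion.2 ⟨(x0, b), mem_univ _, mem_image.2 ⟨xs, hF1 _ _ xs hxs ?_, rfl⟩⟩
      have : -(x0 + (if b then 1 else 0)) + a0 = a := by rw [ha]; abel
      rw [this]; exact h
    rcases as with _ | ⟨a1, as⟩
    · refine ⟨F2, fun x hx h => ?_, by simpa using hF2c⟩
      generalize hy : [a0] = y at h
      cases h with
      | single => simp at hx
      | keep _ h =>
        simp only [List.cons.injEq] at hy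
        exact absurd hy.2.symm h.ne_nil_right
      | merge x0 b h =>
        simp only [List.cons.injEq] at hy
        obtain ⟨h1, rfl⟩ := hy
        exact hmerge x0 b _ _ (by simpa using hx) h h1
    · refine ⟨F2 ∪ (F a1 as).image (List.cons a0), fun x hx h => ?_, ?_⟩
      · generalize hy : a0 :: a1 :: as = y at h
        cases h with
        | single => simp at hx
        | keep _ h =>
          simp only [List.cons.injEq] at hy
          obtain ⟨rfl, rfl⟩ := hy
          exact mem_union_right _ (mem_image.2 ⟨_, hF1 _ _ _ (by simpa using hx) h, rfl⟩)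
        | merge x0 b h =>
          simp only [List.cons.injEq] at hy
          obtain ⟨h1, rfl⟩ := hy
          exact mem_union_left _ (hmerge x0 b _ _ (by simpa using hx) h h1)
      · refine (card_union_le _ _).trans ?_
        have h1 := (card_image_le (f := List.cons a0)).trans (hF2 a1 as)
        simp only [List.length_cons] at hF2c ⊢
        rw [Nat.choose_succ_succ', add_mul]
        have : n + 1 - (as.length + 1) = n - as.length := by omega
        rw [this] at hF2c ⊢
        omega

end Face

end Pool.Agent.MP_53fe41_co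

end MrgPart2

-- ======== part 3: formerly Pool.Agent.MP_53fe41_co.Poly
section MrgPart3

/-! Polychromatic colourings of counting vectors. -/

namespace Pool.Agent.MP_53fe41_co

open Finset

section
variable (A : Type*) [Ring A]

/-- There is a colouring of the counting vectors of length `r` such that every counting vector
of length `n` has faces of each of the colours `0, ..., q - 1`. -/
def Poly (n r q : ℕ) : Prop :=
  ∃ χ : List A → ℕ, ∀ x : List A, x.length = n → ∀ c < q,
    ∃ a, Face x a ∧ a.length = r ∧ χ a = c

open Classical in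
/-- Every counting vector of length `n` misses fewer than `m` of the `q` colours. -/
def Few (n r q m : ℕ) : Prop :=
  ∃ χ : List A → ℕ, ∀ x : List A, x.length = n →
    ((range q).filter fun c => ∀ a, Face x a → a.length = r → χ a ≠ c).card < m

variable {A}

lemma Poly.mono {n r q q' : ℕ} (h : Poly A n r q) (hq : q' ≤ q) : Poly A n r q' := by
  obtain ⟨χ, hχ⟩ := h
  exact ⟨χ, fun x hx c hc => hχ x hx c (by omega)⟩

lemma Few.poly {n r q : ℕ} (h : Few A n r q 1) : Poly A n r q := by
  classical
  obtain ⟨χ, hχ⟩ := h
  refine ⟨χ, fun x hx c hc => ?_⟩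
  have h1 := hχ x hx
  rw [Nat.lt_one_iff, card_eq_zero, filter_eq_empty_iff] at h1
  have h2 := h1 (mem_range.2 hc)
  push Not at h2
  exact h2

lemma exists_face (x : List A) (r : ℕ) (hr : r + 1 ≤ x.length) :
    ∃ a, Face x a ∧ a.length = r + 1 := by
  refine ⟨x.take r ++ [(x.drop r).sum + (0 : ℕ)], ?_, by simp; omega⟩
  have h1 := Face.block (x.drop r) 0 (by rw [List.length_drop]; omega)
  rcases Nat.eq_zero_or_pos r with rfl | h
  · simpa using h1
  · have h2 : Face (x.take r) (x.take r) := Face.refl (by
      intro h0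
      have := congrArg List.length h0
      rw [List.length_take, List.length_nil] at this
      omega)
    have := h2.append h1
    rwa [List.take_append_drop] at this

lemma poly_one (n r : ℕ) (hr : r + 1 ≤ n) : Poly A n (r + 1) 1 := by
  refine ⟨fun _ => 0, fun x hx c hc => ?_⟩
  obtain ⟨a, h1, h2⟩ := exists_face x r (by omega)
  exact ⟨a, h1, h2, by show 0 = c; omega⟩

lemma Poly.lift {B : Type*} [Ring B] (f : A →+* B) {n r q : ℕ} (h : Poly B n r q) :
    Poly A n r q := by
  obtain ⟨χ, hχ⟩ := h
  refine ⟨fun a => χ (a.map f), fun x hx c hc => ?_⟩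
  obtain ⟨b, h1, h2, h3⟩ := hχ (x.map f) (by simpa using hx) c hc
  obtain ⟨a, ha, rfl⟩ := Face.lift f h1 x rfl
  exact ⟨a, ha, by simpa using h2, h3⟩

/-- The local lemma applied to a family of sets of lists of a fixed length. -/
lemma few_of_family [Fintype A] {ι : Type*} [Fintype ι] (R : ι → List A → Prop)
    (r q m N Δ : ℕ) (hN : 0 < N) (hΔ : 0 < Δ) (hm0 : 0 < m) (hm : m ≤ q)
    (hcard : ∀ i, ∃ F : Finset (List A), (∀ a ∈ F, R i a ∧ a.length = r) ∧ N ≤ F.card)
    (hdeg : ∀ a : List A, a.length = r → ∃ F : Finset ι, (∀ i, R i a → i ∈ F) ∧ F.card ≤ Δ)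
    (hmain : Real.log (4 * N * Δ) + m * (1 + Real.log (q / m)) ≤ m * N / q) :
    ∃ χ : List A → ℕ, ∀ i, ∀ S : Finset ℕ,
      (∀ c ∈ S, c < q ∧ ∀ a, R i a → a.length = r → χ a ≠ c) → S.card < m := by
  classical
  obtain ⟨f, hf⟩ := exists_few_missing' (V := List.Vector A r)
    (fun i => univ.filter fun a : List.Vector A r => R i a.1) q m N Δ hN hΔ hm0 hm
    (fun i => by
      obtain ⟨F, hF, hc⟩ := hcard i
      refine hc.trans (card_le_card_of_surjOn (fun a : List.Vector A r => a.1) ?_)
      intro a ha
      exact ⟨⟨a, (hF a ha).2⟩, by simpa using (hF a ha).1, rfl⟩)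
    (fun v => by
      obtain ⟨F, hF, hc⟩ := hdeg v.1 v.2
      refine le_trans (card_le_card fun i hi => hF i ?_) hc
      simpa using hi) hmain
  refine ⟨fun a => if h : a.length = r then (f ⟨a, h⟩ : ℕ) else 0, fun i S hS => ?_⟩
  refine lt_of_le_of_lt ?_ (hf i)
  refine card_le_card_of_surjOn (fun c : Fin q => (c : ℕ)) ?_
  intro c hc
  obtain ⟨h1, h2⟩ := hS c hc
  refine ⟨⟨c, h1⟩, ?_, rfl⟩
  simp only [coe_filter, mem_univ, true_and, mem_filter, Set.mem_ofPred_eq]
  intro v hv hfv
  apply h2 v.1 hv v.2
  simp only [v.2, dif_pos]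
  exact congrArg Fin.val hfv

lemma few_direct [Fintype A] (M : ℕ)
    (hinj : ∀ s s' : ℕ, s < M → s' < M → (s : A) = s' → s = s')
    (r k q m : ℕ) (hM : k + 1 ≤ M) (hm0 : 0 < m) (hm : m ≤ q)
    (hmain : Real.log (4 * ((r + 1 + k).choose k : ℕ)
        * (((r + k).choose k * (2 * Fintype.card A) ^ k : ℕ)))
      + m * (1 + Real.log (q / m)) ≤ m * ((r + 1 + k).choose k : ℕ) / q) :
    Few A (r + 1 + k) (r + 1) q m := by
  classical
  obtain ⟨χ, hχ⟩ := few_of_family (ι := List.Vector A (r + 1 + k)) (fun x a => Face x.1 a)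
    (r + 1) q m ((r + 1 + k).choose k) ((r + k).choose k * (2 * Fintype.card A) ^ k)
    (Nat.choose_pos (by omega))
    (Nat.mul_pos (Nat.choose_pos (by omega)) (pow_pos (by
      have : 0 < Fintype.card A := Fintype.card_pos
      omega) _)) hm0 hm
    (fun x => by
      obtain ⟨F, hF, hc⟩ := count_face M hinj x.1 r (by rw [x.2]; omega)
      refine ⟨F, hF, ?_⟩
      rw [x.2] at hc
      rwa [Nat.choose_symm_add] at hc)
    (fun a ha => by
      rcases a with _ | ⟨a0, as⟩
      · simp at ha
      · obtain ⟨F, hF, hc⟩ := degree_face (r + k) a0 as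
        have hl : as.length = r := by simpa using ha
        rw [hl, Nat.choose_symm_add, Nat.add_sub_cancel_left] at hc
        refine ⟨univ.filter fun x : List.Vector A (r + 1 + k) => x.1 ∈ F, fun x hx => ?_,
          le_trans (card_le_card_of_injOn (fun x => x.1) ?_ ?_) hc⟩
        · simpa using hF x.1 (by rw [x.2]; omega) hx
        · intro x hx; simpa using hx
        · intro x _ y _ h; exact Subtype.ext h) hmain
  refine ⟨χ, fun x hx => hχ ⟨x, hx⟩ _ fun c hc => ?_⟩
  simpa using hc

/-- The two-stage construction. -/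
lemma poly_rec (r1 r2 k p m : ℕ) (hr1 : 0 < r1) (hr2 : 0 < r2)
    (h1 : Few A (r1 + k) r1 (2 * p) m) (h2 : Poly A (r2 + k) r2 (2 * m)) :
    Poly A (r1 + k + (r2 + k)) (r1 + k + r2) p := by
  classical
  obtain ⟨χ1, h1⟩ := h1
  obtain ⟨χ2, h2⟩ := h2
  set Miss : List A → Finset ℕ := fun Y => (range p).filter fun c =>
    (∀ a, Face Y a → a.length = r1 → χ1 a ≠ 2 * c) ∨
      (∀ a, Face Y a → a.length = r1 → χ1 a ≠ 2 * c + 1) with hMiss
  have hMc : ∀ Y, Y.length = r1 + k → (Miss Y).card < m := by
    intro Y hY
    refine lt_of_le_of_lt ?_ (h1 Y hY)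
    refine card_le_card_of_surjOn (fun c => c / 2) ?_
    intro c hc
    simp only [hMiss, coe_filter, mem_range, Set.mem_ofPred_eq] at hc
    rcases hc with ⟨hc, h | h⟩
    · exact ⟨2 * c, by simpa using ⟨hc, h⟩, by simp⟩
    · refine ⟨2 * c + 1, ?_, by simp only; omega⟩
      simp only [coe_filter, mem_range, Set.mem_ofPred_eq]
      exact ⟨by omega, h⟩
  refine ⟨fun a => if χ1 (a.take r1) % 2 = χ2 (a.drop (r1 + k)) % 2 then χ1 (a.take r1) / 2
    else (Miss (a.take (r1 + k))).toList.getD (χ2 (a.drop (r1 + k)) / 2) 0, fun x hx c hc => ?_⟩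
  obtain ⟨Y, Z, rfl, hY, hZ⟩ : ∃ Y Z : List A, x = Y ++ Z ∧ Y.length = r1 + k ∧
      Z.length = r2 + k :=
    ⟨x.take (r1 + k), x.drop (r1 + k), (List.take_append_drop _ _).symm,
      by rw [List.length_take]; omega, by rw [List.length_drop]; omega⟩
  by_cases hcM : c ∈ Miss Y
  · obtain ⟨j, hj, hjc⟩ := List.getElem_of_mem (mem_toList.2 hcM)
    have hjm : j < m := by
      have := hMc Y hY
      rw [length_toList] at hj
      omega
    obtain ⟨B, hB1, hB2, hB3⟩ := h2 Z hZ (2 * j + (1 - χ1 (Y.take r1) % 2)) (by omega)
    have hYne : Y ≠ [] := by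
      intro h0; rw [h0] at hY; simp at hY; omega
    refine ⟨Y ++ B, (Face.refl hYne).append hB1, by simp [hY, hB2], ?_⟩
    have e1 : (Y ++ B).take r1 = Y.take r1 := List.take_append_of_le_length (by omega)
    have e2 : (Y ++ B).take (r1 + k) = Y := by rw [← hY]; simp
    have e3 : (Y ++ B).drop (r1 + k) = B := by rw [← hY]; simp
    simp only [e1, e2, e3, hB3]
    rw [if_neg (by omega)]
    have : (2 * j + (1 - χ1 (Y.take r1) % 2)) / 2 = j := by omega
    rw [this, List.getD_eq_getElem _ _ hj, hjc]
  · simp only [hMiss, mem_filter, mem_range, hc, true_and, not_or, not_forall, not_not] at hcM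
    obtain ⟨⟨a0, ha0, hl0, hc0⟩, ⟨a1, ha1, hl1, hc1⟩⟩ := hcM
    have hZne : Z ≠ [] := by
      intro h0; rw [h0] at hZ; simp at hZ; omega
    obtain ⟨a, ha, hl, hca⟩ : ∃ a, Face Y a ∧ a.length = r1 ∧
        χ1 a = 2 * c + χ2 (Z.drop k) % 2 := by
      rcases Nat.mod_two_eq_zero_or_one (χ2 (Z.drop k)) with h | h
      · exact ⟨a0, ha0, hl0, by omega⟩
      · exact ⟨a1, ha1, hl1, by omega⟩
    refine ⟨a ++ Z, ha.append (Face.refl hZne), by simp [hl, hZ]; omega, ?_⟩
    have e1 : (a ++ Z).take r1 = a := by rw [← hl]; simp
    have e3 : (a ++ Z).drop (r1 + k) = Z.drop k := by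
      rw [← hl]; simp [List.drop_append]
    simp only [e1, e3, hca]
    rw [if_pos (by omega)]
    omega

end

end Pool.Agent.MP_53fe41_co

end MrgPart3

-- ======== part 4: formerly Pool.Agent.MP_53fe41_co.Cube
section MrgPart4

/-! From colourings of counting vectors to colourings of subcubes. -/

namespace Pool.Agent.MP_53fe41_co

open Finset

/-- Add one to the first entry. -/
def incr : List ℤ → List ℤ
  | [] => []
  | a :: t => (a + 1) :: t

/-- The counting vector of a word in `0`, `1`, `*` (with `*` written `none`). -/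
def cv : List (Option Bool) → List ℤ
  | [] => [0]
  | none :: t => 0 :: cv t
  | some false :: t => cv t
  | some true :: t => incr (cv t)

lemma length_incr (x : List ℤ) : (incr x).length = x.length := by
  cases x <;> rfl

lemma length_cv : ∀ L : List (Option Bool), (cv L).length = L.count none + 1
  | [] => rfl
  | none :: t => by simp [cv, length_cv t]
  | some false :: t => by simp [cv, length_cv t]
  | some true :: t => by simp [cv, length_incr, length_cv t]

lemma Face.of_incr {x a : List ℤ} (h : Face (incr x) a) : ∃ a', Face x a' ∧ incr a' = a := by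
  rcases x with _ | ⟨x0, t⟩
  · exact absurd rfl h.ne_nil_left
  · simp only [incr] at h
    generalize hy : (x0 + 1) :: t = y at h
    cases h with
    | single z =>
      simp only [List.cons.injEq] at hy
      obtain ⟨rfl, rfl⟩ := hy
      exact ⟨[x0], Face.single x0, rfl⟩
    | keep z h =>
      simp only [List.cons.injEq] at hy
      obtain ⟨rfl, rfl⟩ := hy
      exact ⟨_, Face.keep x0 h, rfl⟩
    | merge z b h =>
      simp only [List.cons.injEq] at hy
      obtain ⟨rfl, rfl⟩ := hy
      refine ⟨_, Face.merge x0 b h, ?_⟩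
      simp only [incr, List.cons.injEq, and_true]
      ring

lemma face_cv : ∀ (L : List (Option Bool)) (a : List ℤ), Face (cv L) a →
    ∃ L', List.Forall₂ (fun u v => u = none ∨ v = u) L L' ∧ cv L' = a
  | [], a, h => by
    refine ⟨[], List.Forall₂.nil, ?_⟩
    simp only [cv] at h ⊢
    generalize hy : [(0 : ℤ)] = y at h
    cases h with
    | single z => rfl
    | keep z h =>
      simp only [List.cons.injEq] at hy
      exact absurd hy.2.symm h.ne_nil_left
    | merge z b h =>
      simp only [List.cons.injEq] at hy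
      exact absurd hy.2.symm h.ne_nil_left
  | none :: t, a, h => by
    simp only [cv] at h
    generalize hy : (0 : ℤ) :: cv t = y at h
    cases h with
    | single z =>
      simp only [List.cons.injEq] at hy
      have := length_cv t
      rw [hy.2] at this
      simp at this
    | keep z h =>
      simp only [List.cons.injEq] at hy
      obtain ⟨rfl, rfl⟩ := hy
      obtain ⟨L', h1, h2⟩ := face_cv t _ h
      exact ⟨none :: L', List.Forall₂.cons (Or.inl rfl) h1, by simp [cv, h2]⟩
    | merge z b h =>
      simp only [List.cons.injEq] at hy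
      obtain ⟨rfl, rfl⟩ := hy
      obtain ⟨L', h1, h2⟩ := face_cv t _ h
      refine ⟨some b :: L', List.Forall₂.cons (Or.inl rfl) h1, ?_⟩
      cases b
      · simp [cv, h2]
      · simp [cv, h2, incr, add_comm]
  | some false :: t, a, h => by
    obtain ⟨L', h1, h2⟩ := face_cv t a h
    exact ⟨some false :: L', List.Forall₂.cons (Or.inr rfl) h1, h2⟩
  | some true :: t, a, h => by
    obtain ⟨a', ha', rfl⟩ := Face.of_incr h
    obtain ⟨L', h1, h2⟩ := face_cv t a' ha'
    exact ⟨some true :: L', List.Forall₂.cons (Or.inr rfl) h1, by simp [cv, h2]⟩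

lemma count_none_ofFn : ∀ {n : ℕ} (f : Fin n → Option Bool),
    (List.ofFn f).count none = (univ.filter fun i => f i = none).card
  | 0, f => by simp
  | n + 1, f => by
    rw [List.ofFn_succ, List.count_cons, count_none_ofFn, Fin.card_filter_univ_succ']
    by_cases h : f 0 = none
    · simp [h, add_comm]
    · simp [h]

open Classical in
/-- The word in `0`, `1`, `*` of a subcube. -/
noncomputable def pat {n : ℕ} (A : Set (Fin n → Bool)) (i : Fin n) : Option Bool :=
  if ∀ x ∈ A, x i = true then some true else if ∀ x ∈ A, x i = false then some false else none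

lemma pat_eq {n : ℕ} (S : Finset (Fin n)) (v : Fin n → Bool) (i : Fin n) :
    pat {x | ∀ i, i ∉ S → x i = v i} i = if i ∈ S then none else some (v i) := by
  classical
  unfold pat
  by_cases hi : i ∈ S
  · have h : ∀ b : Bool, ¬ ∀ x ∈ {x : Fin n → Bool | ∀ i, i ∉ S → x i = v i}, x i = b := by
      intro b h
      have := h (Function.update v i (!b)) (fun j hj => by
        rw [Function.update_of_ne (by rintro rfl; exact hj hi)])
      simp at this
    rw [if_neg (h true), if_neg (h false), if_pos hi]
  · rw [if_neg hi]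
    cases hv : v i
    · rw [if_neg, if_pos]
      · intro x hx; rw [hx i hi, hv]
      · intro h
        have := h v (fun _ _ => rfl)
        simp [hv] at this
    · rw [if_pos]
      intro x hx; rw [hx i hi, hv]

theorem le_pc {l d n q : ℕ} (hdn : d ≤ n) (hq : 0 < q) (h : Poly ℤ (d + 1) (l + 1) q) :
    q ≤ pc l n d := by
  classical
  refine le_csSup ⟨Fintype.card {A : Set (Fin n → Bool) // IsSubcube n l A}, ?_⟩ ?_
  · rintro q' ⟨χ, hχ⟩
    obtain ⟨S, -, hS⟩ := Finset.exists_subset_card_eq (s := (univ : Finset (Fin n))) (n := d)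
      (by simpa using hdn)
    have hsurj : Function.Surjective χ := fun c => by
      obtain ⟨A, -, hA⟩ := hχ _ ⟨S, hS, fun _ => false, rfl⟩ c
      exact ⟨A, hA⟩
    simpa using Fintype.card_le_of_surjective χ hsurj
  · obtain ⟨χ, hχ⟩ := h
    refine ⟨fun A => if h : χ (cv (List.ofFn (pat A.1))) < q then ⟨_, h⟩ else ⟨0, hq⟩, ?_⟩
    rintro B ⟨S, hS, v, rfl⟩ c
    set f : Fin n → Option Bool := fun i => if i ∈ S then none else some (v i) with hf
    have hfl : (cv (List.ofFn f)).length = d + 1 := by
      rw [length_cv, count_none_ofFn, ← hS]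
      congr 2
      ext i
      by_cases hi : i ∈ S <;> simp [hf, hi]
    obtain ⟨a, ha1, ha2, ha3⟩ := hχ _ hfl c c.2
    obtain ⟨L', hL1, hL2⟩ := face_cv _ _ ha1
    have hlen : L'.length = n := by simpa using hL1.length_eq.symm
    obtain ⟨f', rfl⟩ : ∃ f' : Fin n → Option Bool, L' = List.ofFn f' := by
      subst hlen
      exact ⟨L'.get, (List.ofFn_get L').symm⟩
    have hff' : ∀ i, f i = none ∨ f' i = f i := by
      intro i
      have := (List.forall₂_iff_get.1 hL1).2 i (by simp) (by simp)
      simpa using this
    have hS' : (univ.filter fun i => f' i = none).card = l := by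
      have := length_cv (List.ofFn f')
      rw [hL2, ha2, count_none_ofFn] at this
      omega
    have hpat : pat {x : Fin n → Bool | ∀ i, i ∉ (univ.filter fun i => f' i = none) →
        x i = (f' i).getD false} = f' := by
      funext i
      rw [pat_eq]
      cases h : f' i <;> simp [h]
    refine ⟨⟨_, univ.filter fun i => f' i = none, hS', fun i => (f' i).getD false, rfl⟩, ?_, ?_⟩
    · intro x hx i hi
      have h1 : f' i = some (v i) := by
        rcases hff' i with h | h
        · simp [hf, hi] at h
        · simpa [hf, hi] using h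
      have := hx i (by simp [h1])
      simpa [h1] using this
    · simp only [hpat, hL2, ha3, c.2, dif_pos]

end Pool.Agent.MP_53fe41_co

end MrgPart4

-- marker of a merged file
example : 731051 + 278636 = 731051 + 278636 := rfl
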