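import Mathlib.Data.Int.Star
import Mathlib.Algebra.Order.Ring.Star
import Mathlib.Analysis.Complex.ExponentialBounds
import Pool.Agent.MP_53fe41_co.Cube

/-! The bound in terms of the codimension. -/

namespace Pool.Agent.MP_53fe41_co

open Finset

lemma zmod_inj (M : ℕ) : ∀ s s' : ℕ, s < M → s' < M → (s : ZMod M) = s' → s = s' := by
  intro s s' hs hs' h
  have := (ZMod.natCast_eq_natCast_iff' s s' M).1 h
  rwa [Nat.mod_eq_of_lt hs, Nat.mod_eq_of_lt hs'] at this

lemma le_choose_of_lt (k : ℕ) (hk : 1 ≤ k) : ∀ n, k + 1 ≤ n → n ≤ n.choose k := by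
  intro n hn
  induction n, hn using Nat.le_induction with
  | base => rw [Nat.choose_succ_self_right]
  | succ n hn ih =>
    obtain ⟨j, rfl⟩ : ∃ j, k = j + 1 := ⟨k - 1, by omega⟩
    rw [Nat.choose_succ_succ']
    have : 0 < n.choose j := Nat.choose_pos (by omega)
    omega

lemma choose_le_add (n j : ℕ) : ∀ a, a ≤ n + 1 →
    (n + 1).choose (j + 1) ≤ (n + 1 - a).choose (j + 1) + a * n.choose j := by
  intro a
  induction a with
  | zero => simp
  | succ a ih =>
    intro ha
    have h1 := ih (by omega)
    have h2 : n + 1 - a = (n + 1 - (a + 1)) + 1 := by omega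
    rw [h2, Nat.choose_succ_succ' (n + 1 - (a + 1))] at h1
    have h3 : (n + 1 - (a + 1)).choose j ≤ n.choose j := Nat.choose_le_choose j (by omega)
    rw [add_mul, one_mul]
    omega

lemma log_two_gt : (2 : ℝ) / 3 < Real.log 2 := by
  have := Real.log_two_gt_d9
  linarith

lemma log_main_le (n k r : ℕ) (hn : r + 1 + k = n) :
    Real.log (4 * ((r + 1 + k).choose k : ℕ)
        * (((r + k).choose k * (2 * Fintype.card (ZMod (k + 1))) ^ k : ℕ)))
      ≤ 2 * Real.log 2 + 2 * k * Real.log n + k * Real.log (2 * (k + 1)) := by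
  have hn0 : (0 : ℝ) < n := by exact_mod_cast (by omega : 0 < n)
  have h1 : (((r + 1 + k).choose k : ℕ) : ℝ) ≤ (n : ℝ) ^ k := by
    rw [hn]; exact_mod_cast Nat.choose_le_pow n k
  have h2 : (((r + k).choose k : ℕ) : ℝ) ≤ (n : ℝ) ^ k := by
    exact_mod_cast (Nat.choose_le_choose k (by omega : r + k ≤ n)).trans (Nat.choose_le_pow n k)
  have h3 : (0 : ℝ) < ((r + 1 + k).choose k : ℕ) := by
    exact_mod_cast Nat.choose_pos (by omega)
  have h4 : (0 : ℝ) < ((r + k).choose k : ℕ) := by
    exact_mod_cast Nat.choose_pos (by omega)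
  rw [ZMod.card]
  push_cast
  calc Real.log (4 * ((r + 1 + k).choose k : ℝ) * (((r + k).choose k : ℝ) * (2 * (k + 1)) ^ k))
      ≤ Real.log (2 ^ 2 * (n : ℝ) ^ k * ((n : ℝ) ^ k * (2 * (k + 1)) ^ k)) := by
        apply Real.log_le_log (by positivity)
        gcongr
        norm_num
    _ = _ := by
        rw [Real.log_mul (by positivity) (by positivity), Real.log_mul (by positivity)
          (by positivity), Real.log_mul (by positivity) (by positivity)]
        simp only [Real.log_pow]
        push_cast
        ring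

theorem poly_codim (k : ℕ) (hk : 1 ≤ k) : ∀ n, k + 1 ≤ n → ∀ p : ℕ,
    (p : ℝ) * (200 * (k * Real.log (k + 1))) ≤ n.choose k → Poly (ZMod (k + 1)) n (n - k) p := by
  have hk' : (1 : ℝ) ≤ k := by exact_mod_cast hk
  have hl2 := log_two_gt
  have hlk : Real.log 2 ≤ Real.log (k + 1) := Real.log_le_log (by norm_num) (by linarith)
  set L : ℝ := k * Real.log (k + 1) with hL
  have hL2 : Real.log 2 ≤ L := by nlinarith
  have hLk : k * Real.log 2 ≤ L := by nlinarith
  have hL0 : 0 < L := by linarith
  have hl2k : k * Real.log (2 * (k + 1)) ≤ 2 * L := by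
    rw [Real.log_mul (by norm_num) (by positivity)]; linarith
  intro n
  induction n using Nat.strong_induction_on with
  | _ n ih =>
    intro hn p hp
    have hn0 : (0 : ℝ) < n := by exact_mod_cast (by omega : 0 < n)
    rcases Nat.eq_zero_or_pos p with rfl | hp0
    · exact ⟨fun _ => 0, fun x _ c hc => by omega⟩
    have hp' : (1 : ℝ) ≤ p := by exact_mod_cast hp0
    by_cases hsmall : n ≤ 2 ^ 22 * (k + 1) ^ 4
    · obtain ⟨r, rfl⟩ : ∃ r, n = r + 1 + k := ⟨n - k - 1, by omega⟩
      rw [Nat.add_sub_cancel]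
      refine (few_direct (k + 1) (zmod_inj _) r k p 1 le_rfl one_pos hp0 ?_).poly
      have h1 := log_main_le _ k r rfl
      set n := r + 1 + k
      have h2 : Real.log n ≤ 26 * Real.log (k + 1) := by
        have : (n : ℝ) ≤ 2 ^ 22 * (k + 1) ^ 4 := by exact_mod_cast hsmall
        have h := Real.log_le_log hn0 this
        rw [Real.log_mul (by positivity) (by positivity), Real.log_pow, Real.log_pow] at h
        push_cast at h
        linarith
      have h3 : (p : ℝ) ≤ (n : ℝ) ^ k := by
        have : ((n.choose k : ℕ) : ℝ) ≤ (n : ℝ) ^ k := by exact_mod_cast Nat.choose_le_pow n k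
        nlinarith
      have h4 : Real.log p ≤ k * Real.log n := by
        rw [← Real.log_pow]; exact Real.log_le_log (by linarith) h3
      have h5 : k * Real.log n ≤ 26 * L := by nlinarith
      have h6 : 200 * L ≤ (n.choose k : ℝ) / p := by
        rw [le_div_iff₀ (by linarith)]; linarith
      simp only [Nat.cast_one, one_mul, div_one]
      linarith
    · push Not at hsmall
      have hk4 : (k + 1) ^ 2 ≤ (k + 1) ^ 4 := Nat.pow_le_pow_right (by omega) (by norm_num)
      have hbig : 8 * (k + 1) ^ 2 ≤ n := by omega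
      set n2 := n / (4 * k) with hn2
      have hd1 : 4 * k * n2 ≤ n := Nat.mul_div_le n (4 * k)
      have hd2 : n < 4 * k * (n2 + 1) := Nat.lt_mul_div_succ n (by omega)
      have hn2k : 2 * k + 1 ≤ n2 := by
        by_contra h
        have : n2 + 1 ≤ 2 * k + 1 := by omega
        have := Nat.mul_le_mul_left (4 * k) this
        nlinarith
      have hn2n : 4 * n2 ≤ n := by nlinarith
      set N := n.choose k with hN
      set N2 := n2.choose k with hN2
      set N1 := (n - n2).choose k with hN1
      have hNN1 : (N : ℝ) ≤ 2 * N1 := by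
        obtain ⟨j, hj⟩ : ∃ j, k = j + 1 := ⟨k - 1, by omega⟩
        obtain ⟨n', hn'⟩ : ∃ n', n = n' + 1 := ⟨n - 1, by omega⟩
        have h1 := choose_le_add n' j n2 (by omega)
        have h2 := Nat.add_one_mul_choose_eq n' j
        rw [← hj, ← hn'] at h1 h2
        have h3 : n * (4 * (n2 * n'.choose j)) ≤ n * N := by
          calc n * (4 * (n2 * n'.choose j)) = 4 * n2 * (n * n'.choose j) := by ring
            _ = (4 * k * n2) * N := by rw [h2]; ring
            _ ≤ n * N := Nat.mul_le_mul_right _ hd1
        have h4 := Nat.le_of_mul_le_mul_left h3 (by omega)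
        have : N ≤ 2 * N1 := by omega
        exact_mod_cast this
      have hNN2 : (N : ℝ) ≤ (8 * k) ^ k * N2 := by
        have h1 : (N : ℝ) ≤ (n : ℝ) ^ k / k.factorial := Nat.choose_le_pow_div k n
        have h2 : ((n2 + 1 - k : ℕ) : ℝ) ^ k / k.factorial ≤ N2 := Nat.pow_le_choose k n2
        have h3 : (n : ℝ) ≤ 8 * k * (n2 + 1 - k : ℕ) := by
          have : n ≤ 8 * k * (n2 + 1 - k) := by
            obtain ⟨u, hu⟩ : ∃ u, n2 + 1 = u + k := ⟨n2 + 1 - k, by omega⟩
            rw [hu, Nat.add_sub_cancel]
            rw [hu] at hd2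
            have : k ≤ u := by omega
            nlinarith
          exact_mod_cast this
        calc (N : ℝ) ≤ (n : ℝ) ^ k / k.factorial := h1
          _ ≤ (8 * k * (n2 + 1 - k : ℕ)) ^ k / k.factorial := by gcongr
          _ = (8 * k) ^ k * (((n2 + 1 - k : ℕ) : ℝ) ^ k / k.factorial) := by
            rw [mul_pow]; ring
          _ ≤ _ := by gcongr
      have hN2n : (n : ℝ) ≤ 8 * k * N2 := by
        have h1 : n2 ≤ N2 := le_choose_of_lt k hk n2 (by omega)
        have : n ≤ 8 * k * N2 := by nlinarith
        exact_mod_cast this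
      have hN2N : (N2 : ℝ) ≤ N := by exact_mod_cast Nat.choose_le_choose k (by omega)
      -- the square root of `n`
      set s : ℝ := Real.sqrt n with hs
      have hs2 : s * s = n := Real.mul_self_sqrt hn0.le
      have hs0 : 0 < s := Real.sqrt_pos.2 hn0
      have hsk : 2048 * ((k : ℝ) + 1) ^ 2 ≤ s := by
        apply Real.le_sqrt_of_sq_le
        have : ((2 ^ 22 * (k + 1) ^ 4 : ℕ) : ℝ) ≤ n := by exact_mod_cast hsmall.le
        push_cast at this
        nlinarith
      have hlogn : Real.log n ≤ 2 * s := by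
        rw [← hs2, Real.log_mul hs0.ne' hs0.ne']
        have := Real.log_le_sub_one_of_pos hs0
        linarith
      have hLs : L ≤ (k + 1) ^ 2 := by
        have := Real.log_le_sub_one_of_pos (by positivity : (0 : ℝ) < k + 1)
        nlinarith
      have hN2s : 256 * (k : ℝ) * s ≤ N2 := by
        have h1 : 8 * (k : ℝ) * (256 * k * s) ≤ 8 * k * N2 := by
          have : 2048 * (k : ℝ) ^ 2 ≤ s := by nlinarith
          nlinarith
        exact le_of_mul_le_mul_left h1 (by positivity)
      have hy : 1 ≤ (N2 : ℝ) / (400 * L) := by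
        rw [le_div_iff₀ (by positivity)]
        nlinarith
      set m := ⌊(N2 : ℝ) / (400 * L)⌋₊ with hm
      have hm1 : (m : ℝ) ≤ N2 / (400 * L) := Nat.floor_le (by positivity)
      have hm0 : 0 < m := Nat.floor_pos.2 hy
      have hm0' : (1 : ℝ) ≤ m := by exact_mod_cast hm0
      have hm2 : (N2 : ℝ) / (400 * L) ≤ 2 * m := by
        have := Nat.lt_floor_add_one ((N2 : ℝ) / (400 * L))
        linarith
      rw [div_le_iff₀ (by positivity)] at hm2
      rw [le_div_iff₀ (by positivity)] at hm1
      set p' := ⌊(N : ℝ) / (200 * L)⌋₊ with hp'def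
      have hpp' : p ≤ p' := Nat.le_floor (by rw [le_div_iff₀ (by positivity)]; exact hp)
      have hp'1 : (p' : ℝ) ≤ N / (200 * L) := Nat.floor_le (by positivity)
      rw [le_div_iff₀ (by positivity)] at hp'1
      have hp'0 : (1 : ℝ) ≤ p' := by exact_mod_cast (by omega : 1 ≤ p')
      have hmp : m ≤ p' := Nat.le_floor (by
        rw [le_div_iff₀ (by positivity)]; nlinarith)
      obtain ⟨r1, hr1⟩ : ∃ r1, n - n2 = r1 + 1 + k := ⟨n - n2 - k - 1, by omega⟩
      obtain ⟨r2, hr2⟩ : ∃ r2, n2 = r2 + k := ⟨n2 - k, by omega⟩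
      have hP2 : Poly (ZMod (k + 1)) (r2 + k) r2 (2 * m) := by
        have := ih n2 (by omega) (by omega) (2 * m) (by push_cast; linarith)
        rwa [hr2, Nat.add_sub_cancel] at this
      have hF1 : Few (ZMod (k + 1)) (r1 + 1 + k) (r1 + 1) (2 * p') m := by
        refine few_direct (k + 1) (zmod_inj _) r1 k (2 * p') m le_rfl hm0 (by omega) ?_
        have h1 := log_main_le _ k r1 rfl
        rw [← hr1] at h1 ⊢
        have h2 : Real.log ((n - n2 : ℕ) : ℝ) ≤ Real.log n :=
          Real.log_le_log (by exact_mod_cast (by omega : 0 < n - n2))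
            (by exact_mod_cast Nat.sub_le _ _)
        have h3 : Real.log (2 * (k + 1)) ≤ Real.log n := by
          apply Real.log_le_log (by positivity)
          have : 2 * (k + 1) ≤ n := by nlinarith
          exact_mod_cast this
        have h4 : 2 * Real.log 2 ≤ Real.log n := by
          have h : Real.log ((2 : ℝ) ^ 2) ≤ Real.log n := by
            apply Real.log_le_log (by positivity)
            have : 2 ^ 2 ≤ n := by nlinarith
            exact_mod_cast this
          rw [Real.log_pow] at h
          exact_mod_cast h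
        have hlog0 : 0 ≤ Real.log n := by linarith
        have h5 : 2 * Real.log 2 + 2 * k * Real.log ((n - n2 : ℕ) : ℝ)
            + k * Real.log (2 * (k + 1)) ≤ 8 * k * s := by nlinarith
        have hp2 : (0 : ℝ) < ((2 * p' : ℕ) : ℝ) := by push_cast; linarith
        have h6 : Real.log (((2 * p' : ℕ) : ℝ) / m) ≤ 7 * L := by
          have h7 : ((2 * p' : ℕ) : ℝ) / m ≤ 2 ^ 3 * (2 ^ 3 * (k + 1)) ^ k := by
            rw [div_le_iff₀ (by linarith)]
            have h8 : (8 * (k : ℝ)) ^ k ≤ (2 ^ 3 * (k + 1)) ^ k := by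
              gcongr <;> norm_num
            have h9 : (200 * L) * ((2 * p' : ℕ) : ℝ)
                ≤ (200 * L) * (2 ^ 3 * (2 ^ 3 * (k + 1)) ^ k * m) := by
              push_cast
              have h10 : (N : ℝ) ≤ (2 ^ 3 * (k + 1)) ^ k * (2 * m * (400 * L)) :=
                hNN2.trans (by gcongr)
              nlinarith
            exact le_of_mul_le_mul_left h9 (by positivity)
          have h := Real.log_le_log (div_pos hp2 (by linarith)) h7
          rw [Real.log_mul (by positivity) (by positivity), Real.log_pow, Real.log_pow,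
            Real.log_mul (by positivity) (by positivity), Real.log_pow] at h
          push_cast at h ⊢
          nlinarith
        have h11 : (m : ℝ) * (50 * L) ≤ m * N1 / ((2 * p' : ℕ) : ℝ) := by
          rw [mul_div_assoc]
          apply mul_le_mul_of_nonneg_left _ (by linarith)
          rw [le_div_iff₀ hp2]
          push_cast
          nlinarith
        have h12 : (m : ℝ) * (1 + Real.log (((2 * p' : ℕ) : ℝ) / m)) ≤ m * (9 * L) :=
          mul_le_mul_of_nonneg_left (by linarith) (by linarith)
        have h13 : 8 * k * s ≤ m * (41 * L) := by nlinarith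
        linarith
      have := poly_rec (r1 + 1) r2 k p' m (by omega) (by omega) hF1 hP2
      have e1 : r1 + 1 + k + (r2 + k) = n := by omega
      have e2 : r1 + 1 + k + r2 = n - k := by omega
      rw [e1, e2] at this
      exact this.mono hpp'

theorem exists_poly_codim (l d : ℕ) (h : l < d) : ∃ q : ℕ, 0 < q ∧ Poly ℤ (d + 1) (l + 1) q ∧
    ((d + 1).choose (l + 1) : ℝ) ≤ 400 * ((d - l) * Real.log (d - l + 1)) * q := by
  obtain ⟨k, rfl⟩ : ∃ k, d = l + k := ⟨d - l, by omega⟩
  have hk : 1 ≤ k := by omega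
  have hk' : (1 : ℝ) ≤ k := by exact_mod_cast hk
  have e : ((l + k : ℕ) : ℝ) - l = k := by push_cast; ring
  rw [e]
  have hlog : 0 < Real.log (k + 1) := Real.log_pos (by linarith)
  have hch : (l + k + 1).choose (l + 1) = (l + k + 1).choose k := by
    rw [show l + k + 1 = (l + 1) + k by ring, Nat.choose_symm_add]
  rw [hch]
  set L : ℝ := k * Real.log (k + 1) with hL
  have hL0 : 0 < L := by positivity
  set y : ℝ := ((l + k + 1).choose k : ℝ) / (200 * L) with hy
  have hN : ((l + k + 1).choose k : ℝ) = 200 * L * y := by rw [hy]; field_simp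
  by_cases h1 : 1 ≤ y
  · have h2 : (1 : ℝ) ≤ ⌊y⌋₊ := by exact_mod_cast Nat.floor_pos.2 h1
    refine ⟨⌊y⌋₊, Nat.floor_pos.2 h1, ?_, ?_⟩
    · have := poly_codim k hk (l + k + 1) (by omega) ⌊y⌋₊ (by
        have := Nat.floor_le (by linarith : 0 ≤ y)
        rw [hN]; nlinarith)
      rw [show l + k + 1 - k = l + 1 by omega] at this
      exact this.lift (Int.castRingHom _)
    · have := Nat.lt_floor_add_one y
      rw [hN]; nlinarith
  · refine ⟨1, one_pos, poly_one _ _ (by omega), ?_⟩
    rw [hN]; push_cast; nlinarith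

end Pool.Agent.MP_53fe41_co
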