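import Mathlib.Order.Interval.Finset.Box
import Pool.Agent.MP_53fe41_co.Codim

/-! The bound in terms of the dimension, by coarse graining. -/

namespace Pool.Agent.MP_53fe41_co

open Finset

/-- Coarse cells. -/
def CC {A : Type*} [Ring A] (E : ℕ) (W : ℕ → A) : ℕ → ℕ → List A → Prop
  | 0, n, z => ∃ s < n, z = [W E - W (E - (n + 2)) + 1 + s]
  | r + 1, n, z => ∃ t, 1 ≤ t ∧ t ≤ n ∧ ∃ s < t, ∃ z', CC E W r (n - t) z' ∧
      z = (W (E - (n - t + 2 * (r + 1))) - W (E - (n + 2 * (r + 2))) + 1 + s) :: z'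

lemma count_CC {A : Type*} [Ring A] (M : ℕ)
    (hinj : ∀ s s' : ℕ, s < M → s' < M → (s : A) = s' → s = s') (E : ℕ) (W : ℕ → A)
    (r n : ℕ) (h : n ≤ M + r) :
    ∃ F : Finset (List A), (∀ a ∈ F, CC E W r n a ∧ a.length = r + 1) ∧
      n.choose (r + 1) ≤ F.card :=
  count_cells M hinj (CC E W) (fun n => ⟨_, fun s hs => ⟨s, hs, rfl⟩⟩)
    (fun _ _ t ht htn => ⟨_, fun s hs a ha => ⟨t, ht, htn, s, hs, a, ha, rfl⟩⟩) r n h

lemma CC_congr {A : Type*} [Ring A] (E : ℕ) (W W' : ℕ → A) (h : ∀ i ≤ E, W i = W' i) :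
    ∀ r n z, CC E W r n z → CC E W' r n z
  | 0, n, z, ⟨s, hs, hz⟩ => ⟨s, hs, by rw [hz, h E le_rfl, h _ (Nat.sub_le _ _)]⟩
  | r + 1, n, z, ⟨t, h1, h2, s, hs, z', hz', hz⟩ =>
    ⟨t, h1, h2, s, hs, z', CC_congr E W W' h r _ _ hz', by
      rw [hz, h _ (Nat.sub_le _ _), h _ (Nat.sub_le _ _)]⟩

/-- The residues of the entries, read as digits. -/
def enc (g : ℕ) : List ℤ → ℕ
  | [] => 0
  | v :: a => (v % g).toNat + g * enc g a

lemma block_real (g : ℕ) (hg : 0 < g) (u : List ℤ) (P : ℤ) (t s ρ : ℕ) (hs : s < t) (hρ : ρ < g)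
    (hu : g * (t + 2) ≤ u.length) :
    ∃ a0 : ℤ, Face u [a0] ∧ (a0 % g).toNat = ρ ∧
      a0 / g = (P + u.sum) / g - P / g + 1 + s := by
  have hg' : (0 : ℤ) < g := by exact_mod_cast hg
  have h1 := Int.mul_ediv_add_emod P g
  have h2 := Int.mul_ediv_add_emod (P + u.sum) g
  have h3 := Int.emod_nonneg P hg'.ne'
  have h4 := Int.emod_lt_of_pos P hg'
  have h5 := Int.emod_nonneg (P + u.sum) hg'.ne'
  have h6 := Int.emod_lt_of_pos (P + u.sum) hg'
  set w := P / g
  set w' := (P + u.sum) / g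
  have hρ' : (ρ : ℤ) < g := by exact_mod_cast hρ
  have hst : (s : ℤ) + 1 ≤ t := by exact_mod_cast hs
  have hu' : (g : ℤ) * (t + 2) ≤ u.length := by exact_mod_cast hu
  have hgs : (0 : ℤ) ≤ g * s := by positivity
  have hgt : (g : ℤ) * (s + 1) ≤ g * t := mul_le_mul_of_nonneg_left hst hg'.le
  obtain ⟨sf, hsf⟩ := Int.eq_ofNat_of_zero_le
    (a := ρ + g * (w' - w + 1 + s) - u.sum) (by linarith)
  refine ⟨ρ + g * (w' - w + 1 + s), ?_, ?_, ?_⟩
  · have := Face.block u sf (by
      have : (sf : ℤ) < u.length := by linarith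
      exact_mod_cast this)
    convert this using 2
    linarith
  · rw [Int.add_mul_emod_self_left, Int.emod_eq_of_lt (by positivity) hρ']
    simp
  · rw [Int.add_mul_ediv_left _ _ hg'.ne', Int.ediv_eq_zero_of_lt (by positivity) hρ']
    simp

lemma real_CC (g M E : ℕ) (hg : 0 < g) (x : List ℤ) (hx : g * E ≤ x.length) (W : ℕ → ZMod M)
    (hW : ∀ i < E, W i = (((x.take (g * i)).sum / g : ℤ) : ZMod M))
    (hWE : W E = ((x.sum / g : ℤ) : ZMod M)) :
    ∀ r n z, n + 2 * (r + 1) ≤ E → CC E W r n z → ∀ e < g ^ (r + 1),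
      ∃ a : List ℤ, Face (x.drop (g * (E - (n + 2 * (r + 1))))) a ∧ a.length = r + 1 ∧
        enc g a = e ∧ a.map (fun v : ℤ => ((v / g : ℤ) : ZMod M)) = z
  | 0, n, z, hn, ⟨s, hs, hz⟩, e, he => by
    obtain ⟨i, hi⟩ : ∃ i, E = i + (n + 2) := ⟨E - (n + 2), by omega⟩
    have hi' : E - (n + 2) = i := by omega
    have hi'' : E - (n + 2 * (0 + 1)) = i := by omega
    rw [hi'] at hz
    rw [hi'']
    obtain ⟨a0, h1, h2, h3⟩ := block_real g hg (x.drop (g * i)) (x.take (g * i)).sum n s e hs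
      (by simpa using he) (by
        rw [List.length_drop]
        rw [hi, mul_add] at hx
        omega)
    rw [List.sum_take_add_sum_drop] at h3
    refine ⟨[a0], h1, rfl, by simp [enc, h2], ?_⟩
    rw [hz, hWE, hW i (by omega)]
    simp [h3]
  | r + 1, n, z, hn, ⟨t, ht1, ht2, s, hs, z', hz', hz⟩, e, he => by
    obtain ⟨i, hi⟩ : ∃ i, E = i + (n + 2 * (r + 2)) := ⟨E - (n + 2 * (r + 2)), by omega⟩
    have hi' : E - (n + 2 * (r + 2)) = i := by omega
    have hi'' : E - (n + 2 * (r + 1 + 1)) = i := by omega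
    have hj : E - (n - t + 2 * (r + 1)) = i + (t + 2) := by omega
    rw [hi', hj] at hz
    rw [hi'']
    obtain ⟨a', ha1, ha2, ha3, ha4⟩ := real_CC g M E hg x hx W hW hWE r (n - t) z' (by omega) hz'
      (e / g) (by rw [Nat.div_lt_iff_lt_mul hg, ← pow_succ]; exact he)
    rw [hj] at ha1
    have hlen : g * i + g * (t + 2) ≤ x.length := by
      rw [← mul_add]
      exact le_trans (Nat.mul_le_mul_left _ (by omega)) hx
    obtain ⟨a0, h1, h2, h3⟩ := block_real g hg ((x.drop (g * i)).take (g * (t + 2)))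
      (x.take (g * i)).sum t s (e % g) hs (Nat.mod_lt _ hg) (by
        rw [List.length_take, List.length_drop]
        omega)
    rw [← List.sum_append, ← List.take_add, ← mul_add] at h3
    have h4 := h1.append ha1
    rw [mul_add g i, ← List.drop_drop, List.take_append_drop] at h4
    refine ⟨a0 :: a', h4, by simp [ha2], by simp [enc, h2, ha3, Nat.mod_add_div], ?_⟩
    rw [hz, hW i (by omega), hW (i + (t + 2)) (by omega)]
    simp [h3, ha4]

lemma poly_coarse (r n g E q : ℕ) (hg : 0 < g) (hE : 2 * (r + 1) ≤ E) (hq : 0 < q)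
    (hn : g * E ≤ n) (χ' : List (ZMod E) → ℕ)
    (hχ' : ∀ W : Fin (E + 1) → ZMod E, ∀ c < q, ∃ z,
      CC E (fun i => if h : i < E + 1 then W ⟨i, h⟩ else 0) r (E - 2 * (r + 1)) z ∧ χ' z = c) :
    Poly ℤ n (r + 1) (g ^ (r + 1) * q) := by
  refine ⟨fun a => enc g a * q + χ' (a.map fun v : ℤ => ((v / g : ℤ) : ZMod E)),
    fun x hx c hc => ?_⟩
  set W : ℕ → ZMod E := fun i => if i < E then (((x.take (g * i)).sum / g : ℤ) : ZMod E)
    else ((x.sum / g : ℤ) : ZMod E) with hW
  obtain ⟨z, hz1, hz2⟩ := hχ' (fun i => W i) (c % q) (Nat.mod_lt _ hq)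
  have hz3 := CC_congr E _ W (fun i hi => by rw [dif_pos (by omega)]) _ _ _ hz1
  obtain ⟨a, h1, h2, h3, h4⟩ := real_CC g E E hg x (by omega) W
    (fun i hi => by simp [hW, hi]) (by simp [hW]) r _ z (by omega) hz3 (c / q)
    (by rw [Nat.div_lt_iff_lt_mul hq]; exact hc)
  have : E - (E - 2 * (r + 1) + 2 * (r + 1)) = 0 := by omega
  rw [this, mul_zero, List.drop_zero] at h1
  refine ⟨a, h1, h2, ?_⟩
  simp only [h3, h4, hz2]
  exact Nat.div_add_mod' c q

lemma log_choose_le (n k : ℕ) (h : k ≤ n) : Real.log (n.choose k) ≤ n * Real.log 2 := by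
  rw [← Real.log_pow]
  apply Real.log_le_log (by exact_mod_cast Nat.choose_pos h)
  exact_mod_cast Nat.choose_le_two_pow n k

lemma exists_max_floor (N L : ℝ) (hL : 0 < L) (P : ℕ → Prop) (h1 : P 1)
    (h : ∀ p : ℕ, 0 < p → p * L ≤ N → P p) : ∃ q : ℕ, 0 < q ∧ P q ∧ N ≤ 2 * L * q := by
  set y : ℝ := N / L with hy
  have hN : N = L * y := by rw [hy]; field_simp
  by_cases hy1 : 1 ≤ y
  · have h2 : (1 : ℝ) ≤ ⌊y⌋₊ := by exact_mod_cast Nat.floor_pos.2 hy1
    refine ⟨⌊y⌋₊, Nat.floor_pos.2 hy1, h _ (Nat.floor_pos.2 hy1) ?_, ?_⟩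
    · have := Nat.floor_le (by linarith : 0 ≤ y)
      rw [hN]; nlinarith
    · have := Nat.lt_floor_add_one y
      rw [hN]; nlinarith
  · refine ⟨1, one_pos, h1, ?_⟩
    rw [hN]; push_cast; nlinarith

theorem exists_poly_dim (l d : ℕ) (h : l < d) : ∃ q : ℕ, 0 < q ∧ Poly ℤ (d + 1) (l + 1) q ∧
    ((d + 1).choose (l + 1) : ℝ) ≤ 750 * ((l + 1) ^ 2 * Real.log (l + 2)) * q := by
  have hl2 := log_two_gt
  set r : ℝ := l + 1 with hr
  have hr1 : 1 ≤ r := by rw [hr]; linarith [Nat.cast_nonneg (α := ℝ) l]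
  have hrr : (l : ℝ) + 2 = r + 1 := by rw [hr]; ring
  rw [hrr]
  set lg := Real.log (r + 1) with hlg
  have hlg2 : Real.log 2 ≤ lg := Real.log_le_log (by norm_num) (by linarith)
  have hr2 : 1 ≤ r ^ 2 := one_le_pow₀ hr1
  set L : ℝ := r ^ 2 * lg with hL
  have hlgL : lg ≤ L := by nlinarith
  have hL0 : 0 < L := by linarith
  have hlog16 : ∀ y : ℝ, 0 < y → y ≤ 16 * r ^ 2 → Real.log y ≤ 6 * lg := by
    intro y hy0 hy
    have h1 : Real.log y ≤ Real.log (2 ^ 4 * (r + 1) ^ 2) :=
      Real.log_le_log hy0 (by nlinarith)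
    rw [Real.log_mul (by positivity) (by positivity), Real.log_pow, Real.log_pow] at h1
    push_cast at h1
    linarith
  by_cases hsmall : d + 1 ≤ 7 * (l + 1) ^ 2
  · obtain ⟨k, rfl⟩ : ∃ k, d = l + k := ⟨d - l, by omega⟩
    have e : l + k + 1 = l + 1 + k := by ring
    rw [e] at hsmall ⊢
    rw [Nat.choose_symm_add]
    obtain ⟨q, hq0, hq1, hq2⟩ := exists_max_floor ((l + 1 + k).choose k) (67 * L) (by linarith)
      (fun q => Poly ℤ (l + 1 + k) (l + 1) q) (poly_one _ _ (by omega)) (fun p hp0 hp => by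
        refine Poly.lift (Int.castRingHom (ZMod (k + 1)))
          (few_direct (k + 1) (zmod_inj _) l k p 1 le_rfl one_pos hp0 ?_).poly
        have hp' : (1 : ℝ) ≤ p := by exact_mod_cast hp0
        have h1 := log_choose_le (l + 1 + k) k (by omega)
        have h2 := log_choose_le (l + k) k (by omega)
        have h3 : (0 : ℝ) < ((l + 1 + k).choose k : ℕ) := by
          exact_mod_cast Nat.choose_pos (by omega)
        have h4 : (0 : ℝ) < ((l + k).choose k : ℕ) := by
          exact_mod_cast Nat.choose_pos (by omega)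
        have hn : ((l + 1 + k : ℕ) : ℝ) ≤ 7 * r ^ 2 := by rw [hr]; exact_mod_cast hsmall
        have hn' : ((l + k : ℕ) : ℝ) ≤ 7 * r ^ 2 := by push_cast at hn ⊢; linarith
        have hk : (k : ℝ) + 1 ≤ 7 * r ^ 2 := by
          push_cast at hn; linarith [Nat.cast_nonneg (α := ℝ) l]
        have h5 : Real.log p ≤ Real.log ((l + 1 + k).choose k : ℕ) :=
          Real.log_le_log (by linarith) (by nlinarith)
        have h6 : 67 * L ≤ ((l + 1 + k).choose k : ℝ) / p := by
          rw [le_div_iff₀ (by linarith)]; linarith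
        have h7 := hlog16 (2 * (k + 1)) (by positivity) (by linarith)
        have h8 : (k : ℝ) * Real.log (2 * (k + 1)) ≤ 7 * r ^ 2 * (6 * lg) :=
          mul_le_mul (by linarith) h7 (Real.log_nonneg (by linarith [Nat.cast_nonneg (α := ℝ) k]))
            (by positivity)
        have h9 : ((l + 1 + k : ℕ) : ℝ) * Real.log 2 ≤ 7 * r ^ 2 * lg :=
          mul_le_mul hn hlg2 (by linarith) (by positivity)
        have h10 : ((l + k : ℕ) : ℝ) * Real.log 2 ≤ 7 * r ^ 2 * lg :=
          mul_le_mul hn' hlg2 (by linarith) (by positivity)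
        have h11 : Real.log 4 = 2 * Real.log 2 := by
          rw [show (4 : ℝ) = 2 ^ 2 by norm_num, Real.log_pow]; norm_num
        rw [ZMod.card]
        simp only [Nat.cast_one, one_mul, div_one, Nat.cast_mul, Nat.cast_pow]
        rw [Real.log_mul (by positivity) (by positivity), Real.log_mul (by positivity)
          (by positivity), Real.log_mul (by positivity) (by positivity), Real.log_pow]
        push_cast at h8 ⊢
        linarith)
    refine ⟨q, hq0, hq1, hq2.trans ?_⟩
    have : (0 : ℝ) ≤ L * q := by positivity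
    linarith
  · push Not at hsmall
    set n := d + 1 with hn
    set E0 := 7 * (l + 1) ^ 2 with hE0
    have hE0pos : 0 < E0 := by positivity
    set g := n / E0 with hg
    have hg0 : 0 < g := Nat.div_pos hsmall.le hE0pos
    set E := n / g with hE
    have hE1 : E0 ≤ E := by
      rw [hE, Nat.le_div_iff_mul_le hg0]
      exact Nat.mul_div_le n E0
    have hgE : g * E ≤ n := Nat.mul_div_le n g
    have hgE' : n < g * (E + 1) := Nat.lt_mul_div_succ n hg0
    have hE2 : E ≤ 2 * E0 := by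
      have h1 : n < E0 * (g + 1) := Nat.lt_mul_div_succ n hE0pos
      have h2 : g * E ≤ g * (2 * E0) := by nlinarith
      exact Nat.le_of_mul_le_mul_left h2 hg0
    have hlE : 7 * (l + 1) ≤ E := by nlinarith
    haveI : NeZero E := ⟨by omega⟩
    set D := E - 2 * (l + 1) with hD
    have hEr : (E : ℝ) ≤ 14 * r ^ 2 := by
      have : E ≤ 14 * (l + 1) ^ 2 := by omega
      rw [hr]; exact_mod_cast this
    have hEr' : 7 * r ^ 2 ≤ (E : ℝ) := by rw [hr]; exact_mod_cast hE1
    have hDpos : 0 < D.choose (l + 1) := Nat.choose_pos (by omega)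
    have hDpos' : (0 : ℝ) < D.choose (l + 1) := by exact_mod_cast hDpos
    obtain ⟨q, hq0, hq1, hq2⟩ := exists_max_floor (D.choose (l + 1)) (125 * L) (by linarith)
      (fun q => Poly ℤ n (l + 1) (g ^ (l + 1) * q))
      (poly_coarse l n g E 1 hg0 (by omega) one_pos hgE (fun _ => 0) (fun W c hc => by
        obtain ⟨F, hF, hFc⟩ := count_CC E (zmod_inj E) E
          (fun i => if h : i < E + 1 then W ⟨i, h⟩ else 0) l D (by omega)
        obtain ⟨z, hz⟩ := card_pos.1 (lt_of_lt_of_le hDpos hFc)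
        exact ⟨z, (hF z hz).1, by show 0 = c; omega⟩))
      (fun p hp0 hp => by
        have hp' : (1 : ℝ) ≤ p := by exact_mod_cast hp0
        obtain ⟨χ', hχ'⟩ := few_of_family (A := ZMod E) (ι := Fin (E + 1) → ZMod E)
          (fun W z => CC E (fun i => if h : i < E + 1 then W ⟨i, h⟩ else 0) l D z)
          (l + 1) p 1 (D.choose (l + 1)) (E ^ (E + 1)) hDpos (pow_pos (by omega) _) one_pos hp0
          (fun W => count_CC E (zmod_inj E) E _ l D (by omega))
          (fun a _ => ⟨univ, fun _ _ => mem_univ _, by simp [ZMod.card]⟩) (by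
            have hE0' : (0 : ℝ) < E := by linarith
            have h1 := log_choose_le D (l + 1) (by omega)
            have h2 : (D : ℝ) ≤ E := by exact_mod_cast Nat.sub_le _ _
            have h5 : Real.log p ≤ Real.log (D.choose (l + 1) : ℕ) :=
              Real.log_le_log (by linarith) (by nlinarith)
            have h6 : 125 * L ≤ (D.choose (l + 1) : ℝ) / p := by
              rw [le_div_iff₀ (by linarith)]; linarith
            have h7 := hlog16 E hE0' (by linarith)
            have h8 : ((E : ℝ) + 1) * Real.log E ≤ 15 * r ^ 2 * (6 * lg) :=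
              mul_le_mul (by linarith) h7 (Real.log_nonneg (by linarith)) (by positivity)
            have h9 : (D : ℝ) * Real.log 2 ≤ 14 * r ^ 2 * lg :=
              mul_le_mul (by linarith) hlg2 (by linarith) (by positivity)
            have h11 : Real.log 4 = 2 * Real.log 2 := by
              rw [show (4 : ℝ) = 2 ^ 2 by norm_num, Real.log_pow]; norm_num
            simp only [Nat.cast_one, one_mul, div_one, Nat.cast_pow]
            rw [Real.log_mul (by positivity) (by positivity), Real.log_mul (by positivity)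
              (by positivity), Real.log_pow]
            push_cast
            linarith)
        refine poly_coarse l n g E p hg0 (by omega) hp0 hgE χ' (fun W c hc => ?_)
        by_contra hcon
        push Not at hcon
        have := hχ' W {c} (fun c' hc' => by
          rw [mem_singleton.1 hc']
          exact ⟨hc, fun a ha _ => hcon a ha⟩)
        simp at this)
    refine ⟨g ^ (l + 1) * q, Nat.mul_pos (pow_pos hg0 _) hq0, hq1, ?_⟩
    have hratio : (n.choose (l + 1) : ℝ) ≤ 3 * (g : ℝ) ^ (l + 1) * D.choose (l + 1) := by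
      have h1 : (n.choose (l + 1) : ℝ) ≤ (n : ℝ) ^ (l + 1) / (l + 1).factorial :=
        Nat.choose_le_pow_div (l + 1) n
      have h2 : ((D + 1 - (l + 1) : ℕ) : ℝ) ^ (l + 1) / (l + 1).factorial ≤ D.choose (l + 1) :=
        Nat.pow_le_choose (l + 1) D
      set u : ℝ := ((D + 1 - (l + 1) : ℕ) : ℝ) with hu
      have hu1 : u = E + 1 - 3 * r := by
        have : D + 1 - (l + 1) + 3 * (l + 1) = E + 1 := by omega
        have h' : ((D + 1 - (l + 1) + 3 * (l + 1) : ℕ) : ℝ) = ((E + 1 : ℕ) : ℝ) := by rw [this]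
        rw [Nat.cast_add] at h'
        push_cast at h'
        rw [hu, hr]; push_cast; linarith
      have hu2 : 4 * r ^ 2 ≤ u := by nlinarith
      have hu0 : 0 < u := by linarith
      have h3 : (n : ℝ) ≤ g * (u * (1 + 3 * r / u)) := by
        have : u * (1 + 3 * r / u) = E + 1 := by field_simp; linarith
        rw [this]
        exact_mod_cast hgE'.le
      have h4 : (1 + 3 * r / u) ^ (l + 1) ≤ 3 := by
        have h5 : 1 + 3 * r / u ≤ Real.exp (3 * r / u) := by
          have := Real.add_one_le_exp (3 * r / u); linarith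
        have h6 : (1 + 3 * r / u) ^ (l + 1) ≤ Real.exp (3 * r / u) ^ (l + 1) :=
          pow_le_pow_left₀ (by positivity) h5 _
        rw [← Real.exp_nat_mul] at h6
        have h7 : ((l + 1 : ℕ) : ℝ) * (3 * r / u) ≤ 1 := by
          push_cast
          rw [← hr, ← mul_div_assoc, div_le_one hu0]
          nlinarith
        have h8 := Real.exp_le_exp.2 h7
        have h9 := Real.exp_one_lt_d9
        linarith
      calc (n.choose (l + 1) : ℝ) ≤ (n : ℝ) ^ (l + 1) / (l + 1).factorial := h1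
        _ ≤ (g * (u * (1 + 3 * r / u))) ^ (l + 1) / (l + 1).factorial := by gcongr
        _ = (1 + 3 * r / u) ^ (l + 1) * (g : ℝ) ^ (l + 1) * (u ^ (l + 1) / (l + 1).factorial) := by
          rw [mul_pow, mul_pow]; ring
        _ ≤ 3 * (g : ℝ) ^ (l + 1) * D.choose (l + 1) := by gcongr
    calc (n.choose (l + 1) : ℝ) ≤ 3 * (g : ℝ) ^ (l + 1) * D.choose (l + 1) := hratio
      _ ≤ 3 * (g : ℝ) ^ (l + 1) * (2 * (125 * L) * q) := by gcongr
      _ = _ := by push_cast; ring

end Pool.Agent.MP_53fe41_co
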